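import Mathlib

set_option autoImplicit false

/-!
# Definitions: primitive positive constructions, model-complete cores, stubborn structures

Everything is stated for relational first-order structures in the sense of Mathlib
(`FirstOrder.Language.Structure`).
-/

namespace Pool.Agent.H74.Stub

open FirstOrder FirstOrder.Language

/-- Atomic formulas of a relational language `L` with variables from `X`: falsity, an equality
between two variables, or a relation symbol applied to variables. -/
inductive Atom (L : FirstOrder.Language.{0, 0}) (X : Type) : Type
  | bot : Atom L X
  | eq (x y : X) : Atom L X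
  | rel {n : ℕ} (R : L.Relations n) (t : Fin n → X) : Atom L X

/-- Truth of an atomic formula in the structure `M` under the assignment `v`. -/
def Atom.Holds {L : FirstOrder.Language.{0, 0}} {X M : Type} [L.Structure M] (v : X → M) :
    Atom L X → Prop
  | .bot => False
  | .eq x y => v x = v y
  | .rel R t => Structure.RelMap R (fun i => v (t i))

/-- Primitive positive definability (without parameters) in the structure `M` of a set `S` of
tuples indexed by `I`: for some finite list `l` of atomic formulas in the variables `x i`
(`i : I`) and `y 0, …, y (m - 1)`, the set `S` consists of all `x` for which there are values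
of `y 0, …, y (m - 1)` making all formulas of `l` true. -/
def PPDefinable (L : FirstOrder.Language.{0, 0}) {M : Type} [L.Structure M] {I : Type}
    (S : Set (I → M)) : Prop :=
  ∃ (m : ℕ) (l : List (Atom L (I ⊕ Fin m))),
    ∀ x : I → M, x ∈ S ↔ ∃ y : Fin m → M, ∀ a ∈ l, a.Holds (Sum.elim x y)

/-- `M` pp-constructs `N`: the structure `N` is homomorphically equivalent to a pp-power of `M`,
that is, to a structure `P` with domain `M ^ n`, for some `n ≥ 1`, each of whose relations,
viewed as a relation on `M`, is primitive positive definable in `M`. -/
def PPConstructs (L : FirstOrder.Language.{0, 0}) (M : Type) [L.Structure M]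
    (L' : FirstOrder.Language.{0, 0}) (N : Type) [L'.Structure N] : Prop :=
  ∃ (n : ℕ) (P : L'.Structure (Fin n → M)), 0 < n ∧
    (∀ (k : ℕ) (R : L'.Relations k),
      PPDefinable L {w : Fin k × Fin n → M | P.RelMap R (fun i j => w (i, j))}) ∧
    Nonempty (@FirstOrder.Language.Hom L' (Fin n → M) N P _) ∧
    Nonempty (@FirstOrder.Language.Hom L' N (Fin n → M) _ P)

/-- `M` pp-constructs all finite (nonempty, relational) structures. -/
def PPConstructsAllFinite (L : FirstOrder.Language.{0, 0}) (M : Type) [L.Structure M] : Prop :=
  ∀ (L' : FirstOrder.Language.{0, 0}) [L'.IsRelational] (N : Type) [L'.Structure N]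
    [Finite N] [Nonempty N], PPConstructs L M L' N

/-- The `L'`-structure on `M` is a first-order reduct of the `L`-structure on `M`: each of its
relations is first-order definable without parameters in the latter. -/
def IsFOReduct (L L' : FirstOrder.Language.{0, 0}) (M : Type) [L.Structure M]
    [L'.Structure M] : Prop :=
  ∀ (k : ℕ) (R : L'.Relations k),
    (∅ : Set M).Definable L {v : Fin k → M | Structure.RelMap R v}

/-- The two structures on the domain `M` are first-order interdefinable. -/
def Interdefinable (L L' : FirstOrder.Language.{0, 0}) (M : Type) [L.Structure M]
    [L'.Structure M] : Prop :=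
  IsFOReduct L L' M ∧ IsFOReduct L' L M

/-- The automorphism group of `M` is oligomorphic: for every `n` there are finitely many
`n`-tuples such that every `n`-tuple is mapped to one of them by an automorphism. For countable
`M` this says that `M` is `ω`-categorical (Ryll-Nardzewski). -/
def Oligomorphic (L : FirstOrder.Language.{0, 0}) (M : Type) [L.Structure M] : Prop :=
  ∀ n : ℕ, ∃ T : Finset (Fin n → M), ∀ x : Fin n → M, ∃ g : L.Equiv M M, (fun i => g (x i)) ∈ T

/-- `M` is a model-complete core: it is `ω`-categorical and every endomorphism agrees on every
finite set with some automorphism, that is, the automorphism group is dense in the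
endomorphism monoid. -/
def IsModelCompleteCore (L : FirstOrder.Language.{0, 0}) (M : Type) [L.Structure M] : Prop :=
  Oligomorphic L M ∧
    ∀ (f : L.Hom M M) (s : Finset M), ∃ g : L.Equiv M M, ∀ x ∈ s, g x = f x

/-- `C` is the model-complete core of `A`: `C` is a model-complete core which is
homomorphically equivalent to `A`. -/
def IsModelCompleteCoreOf (L : FirstOrder.Language.{0, 0}) (C A : Type) [L.Structure C]
    [L.Structure A] : Prop :=
  IsModelCompleteCore L C ∧ Nonempty (L.Hom A C) ∧ Nonempty (L.Hom C A)

/-- The (countable, `ω`-categorical) structure `M` is stubborn: every model-complete core which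
is first-order interdefinable with `M` pp-constructs all finite structures. -/
def Stubborn (L : FirstOrder.Language.{0, 0}) (M : Type) [L.Structure M] : Prop :=
  ∀ (L' : FirstOrder.Language.{0, 0}) [L'.IsRelational] [L'.Structure M],
    Interdefinable L L' M → IsModelCompleteCore L' M → PPConstructsAllFinite L' M

/-- The structure `M` is countably infinite and first-order interdefinable with the structure
`(M; =)` without relations, that is, with `(ℕ; =)` up to a bijection of domains. -/
def InterdefinableWithEquality (L : FirstOrder.Language.{0, 0}) (M : Type)
    [L.Structure M] : Prop :=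
  Countable M ∧ Infinite M ∧
    @Interdefinable L FirstOrder.Language.empty M _ FirstOrder.Language.emptyStructure

/-- The automorphism group of `M` is primitive: the only equivalence relations preserved by all
automorphisms are equality and the relation that always holds. -/
def PrimitiveAut (L : FirstOrder.Language.{0, 0}) (M : Type) [L.Structure M] : Prop :=
  ∀ E : Setoid M, (∀ (g : L.Equiv M M) (x y : M), E x y → E (g x) (g y)) → E = ⊥ ∨ E = ⊤

/-- The only symbol of the language `LtLang`: a binary relation symbol. -/
inductive LtRel : ℕ → Type
  | lt : LtRel 2

/-- The relational language with exactly one symbol, a binary relation symbol. -/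
def LtLang : FirstOrder.Language.{0, 0} := ⟨fun _ => Empty, LtRel⟩

instance instRelationalLtLang : LtLang.IsRelational := fun _ => inferInstanceAs (IsEmpty Empty)

/-- The structure `(ℚ; <)`. -/
instance ratLt : LtLang.Structure ℚ where
  funMap := fun f => f.elim
  RelMap := fun {n} R v => match n, R, v with
    | _, LtRel.lt, v => v 0 < v 1

end Pool.Agent.H74.Stub
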