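import Mathlib
import Pool.Agent.H74.Stub.Defs

set_option autoImplicit false

namespace Pool.Agent.H74.Stub

open FirstOrder FirstOrder.Language Set

variable {L : FirstOrder.Language.{0, 0}} {M : Type} [L.Structure M]

/-- Renaming variables in an atomic formula. -/
def Atom.map {X Y : Type} (f : X → Y) : Atom L X → Atom L Y
  | .bot => .bot
  | .eq x y => .eq (f x) (f y)
  | .rel R t => .rel R (fun i => f (t i))

theorem Atom.holds_map {X Y : Type} (f : X → Y) (v : Y → M) (a : Atom L X) :
    (a.map f).Holds v ↔ a.Holds (fun x => v (f x)) := by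
  cases a <;> rfl

/-- The same as `PPDefinable` but with an arbitrary finite type of bound variables. -/
theorem ppDefinable_iff {I : Type} (S : Set (I → M)) :
    PPDefinable L S ↔ ∃ (K : Type) (_ : Finite K) (l : List (Atom L (I ⊕ K))),
      ∀ x : I → M, x ∈ S ↔ ∃ y : K → M, ∀ a ∈ l, a.Holds (Sum.elim x y) := by
  constructor
  · rintro ⟨m, l, h⟩
    exact ⟨Fin m, inferInstance, l, h⟩
  · rintro ⟨K, hK, l, h⟩
    have := Fintype.ofFinite K
    obtain ⟨e⟩ : Nonempty (K ≃ Fin (Fintype.card K)) := ⟨Fintype.equivFin K⟩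
    refine ⟨Fintype.card K, l.map (Atom.map (Sum.map id e)), fun x => ?_⟩
    rw [h x]
    constructor
    · rintro ⟨y, hy⟩
      refine ⟨fun i => y (e.symm i), ?_⟩
      intro a ha
      rw [List.mem_map] at ha
      obtain ⟨b, hb, rfl⟩ := ha
      rw [Atom.holds_map]
      convert hy b hb using 1
      ext (i | k) <;> simp
    · rintro ⟨y, hy⟩
      refine ⟨fun k => y (e k), ?_⟩
      intro b hb
      have := hy _ (List.mem_map_of_mem hb)
      rw [Atom.holds_map] at this
      convert this using 1
      ext (i | k) <;> simp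

theorem pp_univ {I : Type} : PPDefinable L (univ : Set (I → M)) :=
  ⟨0, [], fun x => by simp⟩

theorem pp_empty {I : Type} : PPDefinable L (∅ : Set (I → M)) :=
  ⟨0, [.bot], fun x => by simp [Atom.Holds]⟩

theorem pp_eq {I : Type} (i j : I) : PPDefinable L {x : I → M | x i = x j} :=
  ⟨0, [.eq (Sum.inl i) (Sum.inl j)], fun x => by simp [Atom.Holds]⟩

theorem pp_rel {I : Type} {n : ℕ} (R : L.Relations n) (t : Fin n → I) :
    PPDefinable L {x : I → M | Structure.RelMap R (fun i => x (t i))} :=
  ⟨0, [.rel R (fun i => Sum.inl (t i))], fun x => by simp [Atom.Holds]⟩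

theorem pp_inter {I : Type} {S T : Set (I → M)} (hS : PPDefinable L S) (hT : PPDefinable L T) :
    PPDefinable L (S ∩ T) := by
  obtain ⟨m, l, h⟩ := hS
  obtain ⟨m', l', h'⟩ := hT
  rw [ppDefinable_iff]
  refine ⟨Fin m ⊕ Fin m', inferInstance,
    l.map (Atom.map (Sum.map id Sum.inl)) ++ l'.map (Atom.map (Sum.map id Sum.inr)), fun x => ?_⟩
  rw [mem_inter_iff, h, h']
  constructor
  · rintro ⟨⟨y, hy⟩, ⟨y', hy'⟩⟩
    refine ⟨Sum.elim y y', ?_⟩
    intro a ha
    rw [List.mem_append, List.mem_map, List.mem_map] at ha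
    rcases ha with ⟨b, hb, rfl⟩ | ⟨b, hb, rfl⟩
    · rw [Atom.holds_map]
      convert hy b hb using 1
      ext (i | k) <;> simp
    · rw [Atom.holds_map]
      convert hy' b hb using 1
      ext (i | k) <;> simp
  · rintro ⟨y, hy⟩
    constructor
    · refine ⟨fun k => y (Sum.inl k), fun b hb => ?_⟩
      have := hy _ (List.mem_append_left _ (List.mem_map_of_mem hb))
      rw [Atom.holds_map] at this
      convert this using 1
      ext (i | k) <;> simp
    · refine ⟨fun k => y (Sum.inr k), fun b hb => ?_⟩
      have := hy _ (List.mem_append_right _ (List.mem_map_of_mem hb))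
      rw [Atom.holds_map] at this
      convert this using 1
      ext (i | k) <;> simp

/-- Substitution of variables. -/
theorem pp_comap {I J : Type} (f : I → J) {S : Set (I → M)} (hS : PPDefinable L S) :
    PPDefinable L {x : J → M | (fun i => x (f i)) ∈ S} := by
  obtain ⟨m, l, h⟩ := hS
  refine ⟨m, l.map (Atom.map (Sum.map f id)), fun x => ?_⟩
  rw [mem_ofPred_eq, h]
  constructor
  · rintro ⟨y, hy⟩
    refine ⟨y, fun a ha => ?_⟩
    rw [List.mem_map] at ha
    obtain ⟨b, hb, rfl⟩ := ha
    rw [Atom.holds_map]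
    convert hy b hb using 1
    ext (i | k) <;> simp
  · rintro ⟨y, hy⟩
    refine ⟨y, fun b hb => ?_⟩
    have := hy _ (List.mem_map_of_mem hb)
    rw [Atom.holds_map] at this
    convert this using 1
    ext (i | k) <;> simp

/-- Existential quantification over finitely many variables. -/
theorem pp_exists {I K : Type} [Finite K] {S : Set (I ⊕ K → M)} (hS : PPDefinable L S) :
    PPDefinable L {x : I → M | ∃ y : K → M, Sum.elim x y ∈ S} := by
  obtain ⟨m, l, h⟩ := hS
  rw [ppDefinable_iff]
  refine ⟨K ⊕ Fin m, inferInstance, l.map (Atom.map (Equiv.sumAssoc I K (Fin m))), fun x => ?_⟩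
  rw [mem_ofPred_eq]
  constructor
  · rintro ⟨y, hy⟩
    rw [h] at hy
    obtain ⟨z, hz⟩ := hy
    refine ⟨Sum.elim y z, fun a ha => ?_⟩
    rw [List.mem_map] at ha
    obtain ⟨b, hb, rfl⟩ := ha
    rw [Atom.holds_map]
    convert hz b hb using 1
    ext ((i | k) | j) <;> simp
  · rintro ⟨y, hy⟩
    refine ⟨fun k => y (Sum.inl k), ?_⟩
    rw [h]
    refine ⟨fun k => y (Sum.inr k), fun b hb => ?_⟩
    have := hy _ (List.mem_map_of_mem hb)
    rw [Atom.holds_map] at this
    convert this using 1
    ext ((i | k) | j) <;> simp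

theorem pp_iInter {I κ : Type} [Finite κ] {S : κ → Set (I → M)}
    (hS : ∀ k, PPDefinable L (S k)) : PPDefinable L (⋂ k, S k) := by
  classical
  have := Fintype.ofFinite κ
  have key : ∀ s : Finset κ, PPDefinable L (⋂ k ∈ s, S k) := by
    intro s
    induction s using Finset.induction_on with
    | empty => simpa using pp_univ
    | insert a s _ ih =>
      rw [Finset.set_biInter_insert]
      exact pp_inter (hS a) ih
  simpa using key Finset.univ

/-- pp-definable sets are preserved by homomorphisms. -/
theorem pp_hom {I : Type} {S : Set (I → M)} (hS : PPDefinable L S) (f : M → M)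
    (hf : ∀ {n : ℕ} (R : L.Relations n) (x : Fin n → M), Structure.RelMap R x →
      Structure.RelMap R (fun i => f (x i))) {x : I → M} (hx : x ∈ S) :
    (fun i => f (x i)) ∈ S := by
  obtain ⟨m, l, h⟩ := hS
  rw [h] at hx ⊢
  obtain ⟨y, hy⟩ := hx
  refine ⟨fun k => f (y k), fun a ha => ?_⟩
  have := hy a ha
  cases a with
  | bot => exact this
  | eq u v =>
    have h2 : Sum.elim x y u = Sum.elim x y v := this
    show Sum.elim (fun i => f (x i)) (fun k => f (y k)) u = _
    rcases u with u | u <;> rcases v with v | v <;> simp_all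
  | rel R t =>
    have h2 := hf R _ this
    show Structure.RelMap R _
    convert h2 using 2 with i
    rcases t i with u | u <;> simp

/-- pp-definable sets are preserved by binary polymorphisms. -/
theorem pp_pol {I : Type} {S : Set (I → M)} (hS : PPDefinable L S) (f : M → M → M)
    (hf : ∀ {n : ℕ} (R : L.Relations n) (x x' : Fin n → M), Structure.RelMap R x →
      Structure.RelMap R x' → Structure.RelMap R (fun i => f (x i) (x' i))) {x x' : I → M}
    (hx : x ∈ S) (hx' : x' ∈ S) :
    (fun i => f (x i) (x' i)) ∈ S := by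
  obtain ⟨m, l, h⟩ := hS
  rw [h] at hx hx' ⊢
  obtain ⟨y, hy⟩ := hx
  obtain ⟨y', hy'⟩ := hx'
  refine ⟨fun k => f (y k) (y' k), fun a ha => ?_⟩
  have h1 := hy a ha
  have h2 := hy' a ha
  cases a with
  | bot => exact h1
  | eq u v =>
    have h1 : Sum.elim x y u = Sum.elim x y v := h1
    have h2 : Sum.elim x' y' u = Sum.elim x' y' v := h2
    show Sum.elim (fun i => f (x i) (x' i)) (fun k => f (y k) (y' k)) u = _
    rcases u with u | u <;> rcases v with v | v <;> simp_all
  | rel R t =>
    have h3 := hf R _ _ h1 h2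
    show Structure.RelMap R _
    convert h3 using 2 with i
    rcases t i with u | u <;> simp

end Pool.Agent.H74.Stub
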