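import Mathlib
import Pool.Agent.H74.Stub.PP

set_option autoImplicit false

namespace Pool.Agent.H74.Stub

open FirstOrder FirstOrder.Language Set

/-- Building a sequence step by step. -/
theorem exists_seq_ext {W : Type} (Q : ℕ → (ℕ → W) → Prop)
    (hloc : ∀ N b b', (∀ i < N, b i = b' i) → Q N b → Q N b')
    (R : ℕ → W → Prop) (n0 : ℕ) (b0 : ℕ → W) (h0 : Q n0 b0)
    (hstep : ∀ N, n0 ≤ N → ∀ b, Q N b → ∃ c, R N c ∧ Q (N + 1) (Function.update b N c)) :
    ∃ b : ℕ → W, (∀ i < n0, b i = b0 i) ∧ (∀ N, n0 ≤ N → Q N b) ∧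
      ∀ N, n0 ≤ N → R N (b N) := by
  classical
  have : Nonempty W := ⟨b0 0⟩
  choose! c hc using hstep
  let s : ℕ → (ℕ → W) := fun k =>
    Nat.rec b0 (fun k b => Function.update b (n0 + k) (c (n0 + k) b)) k
  have hs0 : s 0 = b0 := rfl
  have hs1 : ∀ k, s (k + 1) = Function.update (s k) (n0 + k) (c (n0 + k) (s k)) := fun k => rfl
  have hQ : ∀ k, Q (n0 + k) (s k) := by
    intro k
    induction k with
    | zero => exact h0
    | succ k ih =>
      rw [hs1]
      exact (hc (n0 + k) (by omega) _ ih).2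
  have hstab : ∀ k j i, i < n0 + k → s (k + j) i = s k i := by
    intro k j i hi
    induction j with
    | zero => rfl
    | succ j ih =>
      rw [← add_assoc, hs1, Function.update_of_ne (by omega), ih]
  refine ⟨fun i => s (i + 1 - n0) i, ?_, ?_, ?_⟩
  · intro i hi
    have : i + 1 - n0 = 0 := by omega
    show s (i + 1 - n0) i = b0 i
    rw [this, hs0]
  · intro N hN
    obtain ⟨k, rfl⟩ := Nat.exists_eq_add_of_le hN
    refine hloc _ (s k) _ ?_ (hQ k)
    intro i hi
    show s k i = s (i + 1 - n0) i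
    have h1 := hstab (i + 1 - n0) (k - (i + 1 - n0)) i (by omega)
    have h2 : i + 1 - n0 + (k - (i + 1 - n0)) = k := by omega
    rw [h2] at h1
    exact h1
  · intro N hN
    obtain ⟨k, rfl⟩ := Nat.exists_eq_add_of_le hN
    show R (n0 + k) (s (n0 + k + 1 - n0) (n0 + k))
    have h2 : n0 + k + 1 - n0 = k + 1 := by omega
    rw [h2, hs1, Function.update_self]
    exact (hc (n0 + k) (by omega) _ (hQ k)).1

section

variable {L : FirstOrder.Language.{0, 0}} {M : Type} [L.Structure M]

theorem pp_equiv {I : Type} {S : Set (I → M)} (hS : PPDefinable L S) (g : L.Equiv M M)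
    {x : I → M} (hx : x ∈ S) : (fun i => g (x i)) ∈ S :=
  pp_hom hS g (fun R x hx => (g.map_rel R x).2 hx) hx

theorem exists_min_pp (hol : Oligomorphic L M) {N : ℕ} (a : Fin N → M) :
    ∃ S₀ : Set (Fin N → M), PPDefinable L S₀ ∧ a ∈ S₀ ∧
      ∀ S, PPDefinable L S → a ∈ S → S₀ ⊆ S := by
  classical
  obtain ⟨T, hT⟩ := hol N
  let P : Set (Set (Fin N → M)) := {S | PPDefinable L S ∧ a ∈ S}
  have hP : ∃ n, ∃ S ∈ P, (S ∩ (T : Set (Fin N → M))).ncard = n :=
    ⟨_, univ, ⟨pp_univ, mem_univ _⟩, rfl⟩
  obtain ⟨S₀, hS₀, hmin⟩ := Nat.find_spec hP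
  refine ⟨S₀, hS₀.1, hS₀.2, fun S hS haS => ?_⟩
  have h1 : S₀ ∩ S ∈ P := ⟨pp_inter hS₀.1 hS, hS₀.2, haS⟩
  have h2 : Nat.find hP ≤ ((S₀ ∩ S) ∩ (T : Set (Fin N → M))).ncard :=
    Nat.find_min' hP ⟨_, h1, rfl⟩
  have h3 : (S₀ ∩ S) ∩ (T : Set (Fin N → M)) = S₀ ∩ (T : Set (Fin N → M)) := by
    apply Set.eq_of_subset_of_ncard_le
    · exact fun x hx => ⟨hx.1.1, hx.2⟩
    · rw [hmin]; exact h2
    · exact (T.finite_toSet).subset (fun x hx => hx.2)
  intro x hx
  obtain ⟨g, hg⟩ := hT x
  have h4 : (fun i => g (x i)) ∈ (S₀ ∩ S) ∩ (T : Set (Fin N → M)) := by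
    rw [h3]
    exact ⟨pp_equiv hS₀.1 g hx, hg⟩
  have h5 := pp_equiv hS g.symm h4.1.2
  simpa using h5

/-- In a model-complete core, orbits of tuples are pp-definable. -/
theorem orbit_pp [L.IsRelational] [Countable M] [Nonempty M] (h : IsModelCompleteCore L M)
    {n : ℕ} (a : Fin n → M) :
    PPDefinable L {x : Fin n → M | ∃ g : L.Equiv M M, ∀ i, x i = g (a i)} := by
  classical
  obtain ⟨hol, hcore⟩ := h
  obtain ⟨S₀, hS₀, ha, hmin⟩ := exists_min_pp hol a
  convert hS₀ using 1
  apply Set.Subset.antisymm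
  · rintro x ⟨g, hg⟩
    have := pp_equiv hS₀ g ha
    convert this using 1
    ext i
    exact hg i
  intro b hb
  -- the enumeration
  obtain ⟨e, he⟩ := exists_surjective_nat M
  let abar : ℕ → M := fun i => if hi : i < n then a ⟨i, hi⟩ else e (i - n)
  let b0 : ℕ → M := fun i => if hi : i < n then b ⟨i, hi⟩ else e 0
  have habar : ∀ m, ∃ i, abar i = m := by
    intro m
    obtain ⟨k, hk⟩ := he m
    refine ⟨n + k, ?_⟩
    simp [abar, hk]
  let Q : ℕ → (ℕ → M) → Prop := fun N c =>
    ∀ S : Set (Fin N → M), PPDefinable L S → (fun i : Fin N => abar i) ∈ S →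
      (fun i : Fin N => c i) ∈ S
  obtain ⟨bbar, h1, h2, -⟩ := exists_seq_ext Q
    (by
      intro N c c' hcc hc S hS haS
      have : (fun i : Fin N => c' i) = (fun i : Fin N => c i) := by
        ext i
        exact (hcc i i.2).symm
      rw [this]
      exact hc S hS haS)
    (fun _ _ => True) n b0
    (by
      intro S hS haS
      have e1 : (fun i : Fin n => abar i) = a := by
        ext i
        simp [abar]
      have e2 : (fun i : Fin n => b0 i) = b := by
        ext i
        simp [b0]
      rw [e1] at haS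
      rw [e2]
      exact hmin S hS haS hb)
    (by
      intro N _ c hc
      obtain ⟨S₁, hS₁, ha₁, hmin₁⟩ := exists_min_pp hol (fun i : Fin (N + 1) => abar i)
      let f : Fin (N + 1) → Fin N ⊕ Fin 1 := Fin.lastCases (Sum.inr 0) Sum.inl
      have hS₂ := pp_exists (pp_comap f hS₁)
      have ha₂ : (fun i : Fin N => abar i) ∈
          {x : Fin N → M | ∃ y : Fin 1 → M,
            Sum.elim x y ∈ {x : Fin N ⊕ Fin 1 → M | (fun i => x (f i)) ∈ S₁}} := by
        refine ⟨fun _ => abar N, ?_⟩
        simp only [mem_ofPred_eq]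
        convert ha₁ using 1
        ext i
        refine Fin.lastCases ?_ (fun j => ?_) i
        · simp [f]
        · simp [f]
      obtain ⟨y, hy⟩ := hc _ hS₂ ha₂
      simp only [mem_ofPred_eq] at hy
      refine ⟨y 0, trivial, ?_⟩
      intro S hS haS
      have := hmin₁ S hS haS hy
      convert this using 1
      ext i
      refine Fin.lastCases ?_ (fun j => ?_) i
      · simp [f]
      · have : (j : ℕ) ≠ N := j.2.ne
        simp [f, Function.update_of_ne this])
  -- the endomorphism
  choose idx hidx using habar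
  have hf : ∀ j, bbar (idx (abar j)) = bbar j := by
    intro j
    let N := max n (max j (idx (abar j)) + 1)
    have hN1 : j < N := by simp only [N]; omega
    have hN2 : idx (abar j) < N := by simp only [N]; omega
    have := h2 N (by simp only [N]; omega)
      {x : Fin N → M | x ⟨idx (abar j), hN2⟩ = x ⟨j, hN1⟩} (pp_eq _ _)
      (by simpa using hidx (abar j))
    simpa using this
  let F : L.Hom M M :=
    { toFun := fun m => bbar (idx m)
      map_fun' := fun f => isEmptyElim f
      map_rel' := by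
        intro k R x hx
        let N := max n ((Finset.univ.sup fun j => idx (x j)) + 1)
        have hN : ∀ j, idx (x j) < N := by
          intro j
          have : idx (x j) ≤ Finset.univ.sup fun j => idx (x j) :=
            Finset.le_sup (f := fun j => idx (x j)) (Finset.mem_univ j)
          simp only [N]
          omega
        have := h2 N (by simp only [N]; omega)
          {z : Fin N → M | Structure.RelMap R (fun j => z ⟨idx (x j), hN j⟩)} (pp_rel R _)
          (by
            simp only [mem_ofPred_eq]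
            convert hx using 2 with j
            exact hidx (x j))
        exact this }
  obtain ⟨g, hg⟩ := hcore F (Finset.univ.image a)
  refine ⟨g, fun i => ?_⟩
  rw [hg (a i) (Finset.mem_image_of_mem _ (Finset.mem_univ i))]
  show b i = bbar (idx (a i))
  have e1 : a i = abar i := by simp [abar]
  rw [e1, hf, h1 i i.2]
  simp [b0]

end

end Pool.Agent.H74.Stub
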