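import Mathlib
import Pool.Agent.H74.Stub.Core

set_option autoImplicit false

namespace Pool.Agent.H74.Stub

open Set

/-- A family of real-valued functions whose joint image meets every open box. -/
def Generic {K V : Type} (r : K → V → ℝ) : Prop :=
  (∀ k, Function.Injective (r k)) ∧
    ∀ s t : K → ℝ, (∀ k, s k < t k) → ∃ v, ∀ k, s k < r k v ∧ r k v < t k

/-- `p` and `q` have the same order types. -/
def Same {K V W I : Type} (r : K → V → ℝ) (s : K → W → ℝ) (p : I → V) (q : I → W) : Prop :=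
  ∀ k i j, r k (p i) < r k (p j) ↔ s k (q i) < s k (q j)

theorem Same.symm {K V W I : Type} {r : K → V → ℝ} {s : K → W → ℝ} {p : I → V} {q : I → W}
    (h : Same r s p q) : Same s r q p := fun k i j => (h k i j).symm

theorem exists_box (lo hi : Finset ℝ) (h : ∀ x ∈ lo, ∀ y ∈ hi, x < y) :
    ∃ s t : ℝ, s < t ∧ (∀ x ∈ lo, x < s) ∧ (∀ y ∈ hi, t < y) := by
  obtain ⟨t, ht1, ht2⟩ := Order.exists_between_finsets lo hi h
  obtain ⟨s, hs1, hs2⟩ := Order.exists_between_finsets lo {t} (by simpa using ht1)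
  exact ⟨s, t, hs2 t (by simp), hs1, ht2⟩

theorem one_point {K V W I : Type} [Finite I] {r : K → V → ℝ} {s : K → W → ℝ}
    (hr : Generic r) (hs : Generic s) {p : I → V} {q : I → W} (h : Same r s p q) (v : V) :
    ∃ w : W, ∀ k i, (r k (p i) < r k v ↔ s k (q i) < s k w) ∧
      (r k v < r k (p i) ↔ s k w < s k (q i)) := by
  classical
  have := Fintype.ofFinite I
  by_cases hv : ∃ i, p i = v
  · obtain ⟨i, rfl⟩ := hv
    exact ⟨q i, fun k j => ⟨h k j i, h k i j⟩⟩
  · push Not at hv
    have hbox : ∀ k, ∃ a b : ℝ, a < b ∧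
        (∀ x ∈ (Finset.univ.filter fun i => r k (p i) < r k v).image (fun i => s k (q i)), x < a) ∧
        (∀ y ∈ (Finset.univ.filter fun i => r k v < r k (p i)).image (fun i => s k (q i)),
          b < y) := by
      intro k
      apply exists_box
      intro x hx y hy
      rw [Finset.mem_image] at hx hy
      obtain ⟨i, hi, rfl⟩ := hx
      obtain ⟨j, hj, rfl⟩ := hy
      rw [Finset.mem_filter] at hi hj
      rw [← h k i j]
      exact hi.2.trans hj.2
    choose a b hab h1 h2 using hbox
    obtain ⟨w, hw⟩ := hs.2 a b hab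
    refine ⟨w, fun k i => ?_⟩
    rcases lt_trichotomy (r k (p i)) (r k v) with h3 | h3 | h3
    · have h4 : s k (q i) < s k w :=
        (h1 k _ (Finset.mem_image.2 ⟨i, by simpa using h3, rfl⟩)).trans (hw k).1
      exact ⟨⟨fun _ => h4, fun _ => h3⟩, ⟨fun h5 => absurd h5 h3.not_gt,
        fun h5 => absurd h5 h4.not_gt⟩⟩
    · exact absurd ((hr.1 k) h3) (hv i)
    · have h4 : s k w < s k (q i) :=
        (hw k).2.trans (h2 k _ (Finset.mem_image.2 ⟨i, by simpa using h3, rfl⟩))
      exact ⟨⟨fun h5 => absurd h5 h3.not_gt,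
        fun h5 => absurd h5 h4.not_gt⟩, ⟨fun _ => h4, fun _ => h3⟩⟩

theorem ext_iso {K V W : Type} [Nonempty K] [Countable V] [Countable W] [Nonempty V] [Nonempty W]
    {r : K → V → ℝ} {s : K → W → ℝ} (hr : Generic r) (hs : Generic s) {n : ℕ}
    {x : Fin n → V} {y : Fin n → W} (h : Same r s x y) :
    ∃ g : V ≃ W, (∀ i, g (x i) = y i) ∧ ∀ k u v, r k u < r k v ↔ s k (g u) < s k (g v) := by
  classical
  obtain ⟨eV, heV⟩ := exists_surjective_nat V
  obtain ⟨eW, heW⟩ := exists_surjective_nat W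
  let Q : ℕ → (ℕ → V × W) → Prop := fun N b =>
    Same r s (fun i : Fin N => (b i).1) (fun i : Fin N => (b i).2)
  let R : ℕ → V × W → Prop := fun N c =>
    (∀ k, N = n + 2 * k → c.1 = eV k) ∧ (∀ k, N = n + 2 * k + 1 → c.2 = eW k)
  let b0 : ℕ → V × W := fun i => if hi : i < n then (x ⟨i, hi⟩, y ⟨i, hi⟩) else (eV 0, eW 0)
  have key : ∀ N (b : ℕ → V × W), Q N b → ∀ c : V × W,
      (∀ k (i : Fin N), (r k (b i).1 < r k c.1 ↔ s k (b i).2 < s k c.2) ∧
      (r k c.1 < r k (b i).1 ↔ s k c.2 < s k (b i).2)) → Q (N + 1) (Function.update b N c) := by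
    intro N b hb c hc k i j
    refine Fin.lastCases ?_ (fun i => ?_) i
    · refine Fin.lastCases ?_ (fun j => ?_) j
      · simp
      · have hj : (j : ℕ) ≠ N := j.2.ne
        simpa [Function.update_of_ne hj] using (hc k j).2
    · have hi : (i : ℕ) ≠ N := i.2.ne
      refine Fin.lastCases ?_ (fun j => ?_) j
      · simpa [Function.update_of_ne hi] using (hc k i).1
      · have hj : (j : ℕ) ≠ N := j.2.ne
        simpa [Function.update_of_ne hi, Function.update_of_ne hj] using hb k i j
  obtain ⟨b, h1, h2, h3⟩ := exists_seq_ext Q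
    (by
      intro N b b' hbb hb k i j
      have e1 := hbb i i.2
      have e2 := hbb j j.2
      show r k (b' i).1 < r k (b' j).1 ↔ s k (b' i).2 < s k (b' j).2
      rw [← e1, ← e2]
      exact hb k i j)
    R n b0
    (by
      intro k i j
      simpa [b0] using h k i j)
    (by
      intro N hN b hb
      obtain ⟨m, rfl⟩ := Nat.exists_eq_add_of_le hN
      rcases Nat.even_or_odd' m with ⟨k, rfl | rfl⟩
      · obtain ⟨w, hw⟩ := one_point hr hs hb (eV k)
        refine ⟨(eV k, w), ⟨?_, ?_⟩, key _ b hb _ (fun k i => hw k i)⟩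
        · intro k' hk'
          have : k = k' := by omega
          rw [this]
        · intro k' hk'
          omega
      · obtain ⟨v, hv⟩ := one_point hs hr hb.symm (eW k)
        refine ⟨(v, eW k), ⟨?_, ?_⟩, key _ b hb _ (fun k i => ⟨((hv k i).1).symm, ((hv k i).2).symm⟩)⟩
        · intro k' hk'
          omega
        · intro k' hk'
          have : k = k' := by omega
          rw [this])
  have hlt : ∀ k i j, r k (b i).1 < r k (b j).1 ↔ s k (b i).2 < s k (b j).2 := by
    intro k i j
    have := h2 (n + (i + j) + 1) (by omega) k ⟨i, by omega⟩ ⟨j, by omega⟩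
    exact this
  obtain ⟨k0⟩ := (inferInstance : Nonempty K)
  have heq : ∀ i j, (b i).1 = (b j).1 ↔ (b i).2 = (b j).2 := by
    intro i j
    constructor
    · intro h
      apply hs.1 k0
      apply le_antisymm
      · rw [← not_lt, ← hlt k0, h]
        exact lt_irrefl _
      · rw [← not_lt, ← hlt k0, h]
        exact lt_irrefl _
    · intro h
      apply hr.1 k0
      apply le_antisymm
      · rw [← not_lt, hlt k0, h]
        exact lt_irrefl _
      · rw [← not_lt, hlt k0, h]
        exact lt_irrefl _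
  have hV : ∀ v, ∃ i, (b i).1 = v := by
    intro v
    obtain ⟨k, rfl⟩ := heV v
    exact ⟨n + 2 * k, (h3 _ (by omega)).1 k rfl⟩
  have hW : ∀ w, ∃ i, (b i).2 = w := by
    intro w
    obtain ⟨k, rfl⟩ := heW w
    exact ⟨n + 2 * k + 1, (h3 _ (by omega)).2 k rfl⟩
  choose iV hiV using hV
  choose iW hiW using hW
  have hg : ∀ j, (b (iV (b j).1)).2 = (b j).2 := fun j => (heq _ _).1 (hiV _)
  have hg' : ∀ j, (b (iW (b j).2)).1 = (b j).1 := fun j => (heq _ _).2 (hiW _)
  let g : V ≃ W :=
    { toFun := fun v => (b (iV v)).2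
      invFun := fun w => (b (iW w)).1
      left_inv := fun v => by
        show (b (iW (b (iV v)).2)).1 = v
        rw [hg', hiV]
      right_inv := fun w => by
        show (b (iV (b (iW w)).1)).2 = w
        rw [hg, hiW] }
  refine ⟨g, fun i => ?_, fun k u v => ?_⟩
  · have e1 : (b i).1 = x i := by rw [h1 i i.2]; simp [b0]
    have e2 : (b i).2 = y i := by rw [h1 i i.2]; simp [b0]
    show (b (iV (x i))).2 = y i
    rw [← e1, hg, e2]
  · show _ ↔ s k (b (iV u)).2 < s k (b (iV v)).2
    rw [← hlt, hiV, hiV]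

end Pool.Agent.H74.Stub
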