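import Mathlib
import Pool.Agent.H74.Stub.Generic

set_option autoImplicit false

namespace Pool.Agent.H74.Stub

open FirstOrder FirstOrder.Language Set

/-! ### The point set -/

/-- The point set: `ℚ × ℚ`, thought of as `ℚ(√2)`. -/
abbrev V0 : Type := ℚ × ℚ

/-- The first real embedding. -/
noncomputable def y1 (v : V0) : ℝ := v.1 + v.2 * √2

/-- The second real embedding. -/
noncomputable def y2 (v : V0) : ℝ := v.1 - v.2 * √2

theorem sqrt2_rat {a b : ℚ} (h : (a : ℝ) + b * √2 = 0) : a = 0 ∧ b = 0 := by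
  have hb : b = 0 := by
    by_contra hb
    have hb' : (b : ℝ) ≠ 0 := by exact_mod_cast hb
    have : √2 = ((-a / b : ℚ) : ℝ) := by
      push_cast
      rw [eq_div_iff hb']
      linarith
    exact irrational_sqrt_two ⟨_, this.symm⟩
  subst hb
  simp at h
  exact ⟨h, rfl⟩

theorem y1_inj : Function.Injective y1 := by
  intro u v h
  have h' : ((u.1 - v.1 : ℚ) : ℝ) + ((u.2 - v.2 : ℚ) : ℝ) * √2 = 0 := by
    simp only [y1] at h
    push_cast
    linarith
  obtain ⟨h1, h2⟩ := sqrt2_rat h'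
  exact Prod.ext (by linarith) (by linarith)

theorem y2_inj : Function.Injective y2 := by
  intro u v h
  have h' : ((u.1 - v.1 : ℚ) : ℝ) + ((v.2 - u.2 : ℚ) : ℝ) * √2 = 0 := by
    simp only [y2] at h
    push_cast
    linarith
  obtain ⟨h1, h2⟩ := sqrt2_rat h'
  exact Prod.ext (by linarith) (by linarith)

theorem y_dense (s1 t1 s2 t2 : ℝ) (h1 : s1 < t1) (h2 : s2 < t2) :
    ∃ v : V0, s1 < y1 v ∧ y1 v < t1 ∧ s2 < y2 v ∧ y2 v < t2 := by
  set δ := min (t1 - s1) (t2 - s2) / 4 with hδ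
  have hδ0 : 0 < δ := by
    have : 0 < min (t1 - s1) (t2 - s2) := lt_min (by linarith) (by linarith)
    positivity
  have hδ1 : 4 * δ ≤ t1 - s1 := by
    have := min_le_left (t1 - s1) (t2 - s2)
    linarith
  have hδ2 : 4 * δ ≤ t2 - s2 := by
    have := min_le_right (t1 - s1) (t2 - s2)
    linarith
  set c1 := (s1 + t1) / 2
  set c2 := (s2 + t2) / 2
  have h2' : 0 < √2 := by positivity
  obtain ⟨a, ha1, ha2⟩ := exists_rat_btwn (show (c1 + c2) / 2 - δ < (c1 + c2) / 2 + δ by linarith)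
  obtain ⟨b, hb1, hb2⟩ := exists_rat_btwn (show ((c1 - c2) / 2 - δ) / √2 < ((c1 - c2) / 2 + δ) / √2
    by apply div_lt_div_of_pos_right _ h2'; linarith)
  rw [div_lt_iff₀ h2'] at hb1
  rw [lt_div_iff₀ h2'] at hb2
  refine ⟨(a, b), ?_, ?_, ?_, ?_⟩ <;> simp only [y1, y2] <;> simp only [c1, c2] at * <;> linarith

theorem generic_y1 : Generic (fun (_ : Unit) => y1) := by
  refine ⟨fun _ => y1_inj, fun s t h => ?_⟩
  obtain ⟨v, h1, h2, -, -⟩ := y_dense (s ()) (t ()) 0 1 (h _) (by norm_num)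
  exact ⟨v, fun _ => ⟨h1, h2⟩⟩

theorem generic_rat : Generic (fun (_ : Unit) (q : ℚ) => (q : ℝ)) := by
  refine ⟨fun _ => Rat.cast_injective, fun s t h => ?_⟩
  obtain ⟨q, h1, h2⟩ := exists_rat_btwn (h ())
  exact ⟨q, fun _ => ⟨h1, h2⟩⟩

/-- There is a one-to-one function from the rationals to the reals whose graph meets every open
box. -/
theorem exists_generic_fun : ∃ f : ℚ → ℝ, Function.Injective f ∧
    ∀ s1 t1 s2 t2 : ℝ, s1 < t1 → s2 < t2 → ∃ q : ℚ, s1 < q ∧ (q : ℝ) < t1 ∧ s2 < f q ∧ f q < t2 := by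
  obtain ⟨g, -, hg⟩ := ext_iso generic_y1 generic_rat (n := 0) (x := Fin.elim0) (y := Fin.elim0)
    (fun k i => i.elim0)
  have hg' : ∀ u v, y1 u < y1 v ↔ g u < g v := by
    intro u v
    rw [hg () u v]
    exact Rat.cast_lt
  refine ⟨fun q => y2 (g.symm q), fun a b h => g.symm.injective (y2_inj h), ?_⟩
  intro s1 t1 s2 t2 h1 h2
  obtain ⟨a, ha1, ha2⟩ := exists_rat_btwn h1
  obtain ⟨b, hb1, hb2⟩ := exists_rat_btwn ha2
  have hab : a < b := by exact_mod_cast hb1
  have hab' : y1 (g.symm a) < y1 (g.symm b) := by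
    rw [hg', Equiv.apply_symm_apply, Equiv.apply_symm_apply]
    exact hab
  obtain ⟨v, hv1, hv2, hv3, hv4⟩ := y_dense _ _ s2 t2 hab' h2
  rw [hg', Equiv.apply_symm_apply] at hv1
  rw [hg', Equiv.apply_symm_apply] at hv2
  have hv1' : (a : ℝ) < g v := by exact_mod_cast hv1
  have hv2' : (g v : ℝ) < b := by exact_mod_cast hv2
  refine ⟨g v, by linarith, by linarith, ?_, ?_⟩
  · simpa using hv3
  · simpa using hv4

end Pool.Agent.H74.Stub
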