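import Mathlib
import Pool.Agent.H74.Stub.Plane

set_option autoImplicit false

namespace Pool.Agent.H74.Stub

open FirstOrder FirstOrder.Language Set

/-! ### The point set and the two orders -/

/-- The point set. -/
abbrev V : Type := ℚ

/-- The first coordinate: it gives the usual order. -/
noncomputable def x1 (v : V) : ℝ := (v : ℝ)

/-- The second coordinate: it gives a second order. -/
noncomputable def x2 : V → ℝ := exists_generic_fun.choose

theorem x1_inj : Function.Injective x1 := Rat.cast_injective

theorem x2_inj : Function.Injective x2 := exists_generic_fun.choose_spec.1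

theorem x_dense (s1 t1 s2 t2 : ℝ) (h1 : s1 < t1) (h2 : s2 < t2) :
    ∃ v : V, s1 < x1 v ∧ x1 v < t1 ∧ s2 < x2 v ∧ x2 v < t2 :=
  exists_generic_fun.choose_spec.2 s1 t1 s2 t2 h1 h2

/-- both coordinates, the second one multiplied by a sign -/
noncomputable def rr (σ : ℝ) (k : Bool) (v : V) : ℝ := if k then σ * x2 v else x1 v

theorem rr_false (σ : ℝ) (v : V) : rr σ false v = x1 v := by simp [rr]

theorem rr_true (σ : ℝ) (v : V) : rr σ true v = σ * x2 v := by simp [rr]

theorem generic_rr_one : Generic (rr 1) := by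
  constructor
  · intro k
    cases k
    · intro u v h
      rw [rr_false, rr_false] at h
      exact x1_inj h
    · intro u v h
      rw [rr_true, rr_true] at h
      exact x2_inj (by linarith)
  · intro s t h
    obtain ⟨v, h1, h2, h3, h4⟩ := x_dense (s false) (t false) (s true) (t true) (h _) (h _)
    refine ⟨v, fun k => ?_⟩
    cases k
    · simpa [rr] using ⟨h1, h2⟩
    · simpa [rr] using ⟨h3, h4⟩

theorem generic_rr_neg : Generic (rr (-1)) := by
  constructor
  · intro k
    cases k
    · intro u v h
      rw [rr_false, rr_false] at h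
      exact x1_inj h
    · intro u v h
      rw [rr_true, rr_true] at h
      exact x2_inj (by linarith)
  · intro s t h
    obtain ⟨v, h1, h2, h3, h4⟩ := x_dense (s false) (t false) (-t true) (-s true) (h _)
      (neg_lt_neg (h _))
    refine ⟨v, fun k => ?_⟩
    cases k
    · simpa [rr] using ⟨h1, h2⟩
    · simp only [rr, if_true]
      constructor <;> linarith

theorem generic_x1 : Generic (fun (_ : Unit) => x1) := by
  refine ⟨fun _ => x1_inj, fun s t h => ?_⟩
  obtain ⟨v, h1, h2, -, -⟩ := x_dense (s ()) (t ()) 0 1 (h _) (by norm_num)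
  exact ⟨v, fun _ => ⟨h1, h2⟩⟩

/-! ### The languages and structures -/

/-- Symbols of the language of `B`. -/
inductive RelB : ℕ → Type
  | lt : RelB 2
  | btw : RelB 3

/-- The language of `B`. -/
def LB : FirstOrder.Language.{0, 0} := ⟨fun _ => Empty, RelB⟩

instance instRelationalLB : LB.IsRelational := fun _ => inferInstanceAs (IsEmpty Empty)

/-- symbol -/
def ltB : LB.Relations 2 := RelB.lt
/-- symbol -/
def btwB : LB.Relations 3 := RelB.btw
/-- symbol -/
def ltA : LtLang.Relations 2 := LtRel.lt

/-- Strict betweenness: the second entry lies strictly between the other two. -/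
def Btw (a b c : ℝ) : Prop := (a < b ∧ b < c) ∨ (c < b ∧ b < a)

/-- The structure `B = (V; <₁, Betw₂)`. -/
noncomputable instance structB : LB.Structure V where
  funMap := fun f => f.elim
  RelMap := fun {n} R v => match n, R, v with
    | _, RelB.lt, v => x1 (v 0) < x1 (v 1)
    | _, RelB.btw, v => Btw (x2 (v 0)) (x2 (v 1)) (x2 (v 2))

theorem relMap_ltB (v : Fin 2 → V) : Structure.RelMap ltB v ↔ x1 (v 0) < x1 (v 1) := Iff.rfl
theorem relMap_btwB (v : Fin 3 → V) :
    Structure.RelMap btwB v ↔ Btw (x2 (v 0)) (x2 (v 1)) (x2 (v 2)) := Iff.rfl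
theorem relMap_ltA (v : Fin 2 → V) : Structure.RelMap ltA v ↔ x1 (v 0) < x1 (v 1) :=
  (Rat.cast_lt (K := ℝ)).symm

/-! ### Betweenness determines the order up to reversal -/

theorem btw_three {p1 p2 p3 q1 q2 q3 : ℝ} (hp12 : p1 ≠ p2) (hp13 : p1 ≠ p3) (hp23 : p2 ≠ p3)
    (hq12 : q1 ≠ q2) (hq13 : q1 ≠ q3) (hq23 : q2 ≠ q3)
    (h1 : Btw p1 p2 p3 ↔ Btw q1 q2 q3) (h2 : Btw p2 p1 p3 ↔ Btw q2 q1 q3) :
    ((p1 < p2 ↔ q1 < q2) ↔ (p1 < p3 ↔ q1 < q3)) := by
  unfold Btw at *
  rcases lt_or_gt_of_ne hp12 with a | a <;> rcases lt_or_gt_of_ne hp13 with b | b <;>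
  rcases lt_or_gt_of_ne hp23 with c | c <;> rcases lt_or_gt_of_ne hq12 with d | d <;>
  rcases lt_or_gt_of_ne hq13 with e | e <;> rcases lt_or_gt_of_ne hq23 with f | f <;>
  simp_all [not_lt_of_gt]

theorem btw_order {I : Type} {p q : I → ℝ} (hp : Function.Injective p) (hq : Function.Injective q)
    (h : ∀ i j k, Btw (p i) (p j) (p k) ↔ Btw (q i) (q j) (q k)) :
    (∀ i j, p i < p j ↔ q i < q j) ∨ (∀ i j, p i < p j ↔ q j < q i) := by
  let A : I → I → Prop := fun i j => (p i < p j ↔ q i < q j)
  have hsymm : ∀ i j, i ≠ j → (A i j ↔ A j i) := by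
    intro i j hij
    have h1 : p i ≠ p j := fun h => hij (hp h)
    have h2 : q i ≠ q j := fun h => hij (hq h)
    simp only [A]
    rcases lt_or_gt_of_ne h1 with a | a <;> rcases lt_or_gt_of_ne h2 with b | b <;>
      simp [a, b, not_lt_of_gt a, not_lt_of_gt b]
  have hshare : ∀ i j k, i ≠ j → i ≠ k → (A i j ↔ A i k) := by
    intro i j k hij hik
    by_cases hjk : j = k
    · rw [hjk]
    · exact btw_three (fun h => hij (hp h)) (fun h => hik (hp h)) (fun h => hjk (hp h))
        (fun h => hij (hq h)) (fun h => hik (hq h)) (fun h => hjk (hq h))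
        (h i j k) (h j i k)
  have hall : ∀ i j k l, i ≠ j → k ≠ l → (A i j ↔ A k l) := by
    intro i j k l hij hkl
    by_cases hik : i = k
    · subst hik
      exact hshare i j l hij hkl
    · rw [hshare i j k hij hik, hsymm i k hik]
      exact hshare k i l (Ne.symm hik) hkl
  by_cases hex : ∃ i j, i ≠ j ∧ A i j
  · left
    obtain ⟨i, j, hij, hA⟩ := hex
    intro k l
    by_cases hkl : k = l
    · subst hkl
      simp
    · exact (hall i j k l hij hkl).1 hA
  · right
    push Not at hex
    intro k l
    by_cases hkl : k = l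
    · subst hkl
      simp
    · have h1 := hex k l hkl
      have h2 : q k ≠ q l := fun h => hkl (hq h)
      simp only [A] at h1
      rcases lt_or_gt_of_ne h2 with b | b
      · simp only [b, not_lt_of_gt b, iff_true, iff_false] at h1 ⊢
        exact h1
      · simp only [b, not_lt_of_gt b, iff_true, iff_false, not_not] at h1 ⊢
        exact h1

/-! ### Automorphisms -/

/-- `x` and `y` have the same isomorphism type in `B`. -/
def SameB {I : Type} (x y : I → V) : Prop :=
  (∀ i j, x1 (x i) < x1 (x j) ↔ x1 (y i) < x1 (y j)) ∧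
    ((∀ i j, x2 (x i) < x2 (x j) ↔ x2 (y i) < x2 (y j)) ∨
      (∀ i j, x2 (x i) < x2 (x j) ↔ x2 (y j) < x2 (y i)))

theorem autB_of {g : V ≃ V} (h1 : ∀ u v, x1 u < x1 v ↔ x1 (g u) < x1 (g v))
    (h2 : (∀ u v, x2 u < x2 v ↔ x2 (g u) < x2 (g v)) ∨
      (∀ u v, x2 u < x2 v ↔ x2 (g v) < x2 (g u))) :
    ∃ g' : LB.Equiv V V, ∀ v, g' v = g v := by
  refine ⟨{ toEquiv := g, map_fun' := fun f => f.elim, map_rel' := ?_ }, fun v => rfl⟩
  intro n R v
  cases R with
  | lt => exact (h1 (v 0) (v 1)).symm
  | btw =>
    show Btw (x2 (g (v 0))) (x2 (g (v 1))) (x2 (g (v 2))) ↔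
      Btw (x2 (v 0)) (x2 (v 1)) (x2 (v 2))
    unfold Btw
    rcases h2 with h2 | h2
    · rw [← h2, ← h2, ← h2, ← h2]
    · rw [← h2, ← h2, ← h2, ← h2]
      tauto

theorem autB_same (g : LB.Equiv V V) : SameB (fun v : V => v) (fun v => g v) := by
  refine ⟨fun i j => (g.map_rel ltB ![i, j]).symm, ?_⟩
  refine btw_order x2_inj (fun u v h => g.injective (x2_inj h)) ?_
  intro i j k
  exact (g.map_rel btwB ![i, j, k]).symm

theorem exists_autB {n : ℕ} {x y : Fin n → V} (h : SameB x y) :
    ∃ g : LB.Equiv V V, ∀ i, g (x i) = y i := by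
  obtain ⟨h1, h2 | h2⟩ := h
  · obtain ⟨g, hg1, hg2⟩ := ext_iso generic_rr_one generic_rr_one (x := x) (y := y) (by
      intro k i j
      cases k
      · simpa [rr_false] using h1 i j
      · simpa [rr_true] using h2 i j)
    obtain ⟨g', hg'⟩ := autB_of (g := g)
      (fun u v => by simpa [rr_false] using hg2 false u v)
      (Or.inl fun u v => by simpa [rr_true] using hg2 true u v)
    exact ⟨g', fun i => by rw [hg', hg1]⟩
  · obtain ⟨g, hg1, hg2⟩ := ext_iso generic_rr_one generic_rr_neg (x := x) (y := y) (by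
      intro k i j
      cases k
      · simpa [rr_false] using h1 i j
      · simpa [rr_true] using h2 i j)
    obtain ⟨g', hg'⟩ := autB_of (g := g)
      (fun u v => by simpa [rr_false] using hg2 false u v)
      (Or.inr fun u v => by simpa [rr_true] using hg2 true u v)
    exact ⟨g', fun i => by rw [hg', hg1]⟩

theorem autA_of {g : V ≃ V} (h1 : ∀ u v, x1 u < x1 v ↔ x1 (g u) < x1 (g v)) :
    ∃ g' : LtLang.Equiv V V, ∀ v, g' v = g v := by
  refine ⟨{ toEquiv := g, map_fun' := fun f => f.elim, map_rel' := ?_ }, fun v => rfl⟩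
  intro n R v
  cases R with
  | lt => exact (relMap_ltA _).trans ((h1 (v 0) (v 1)).symm.trans (relMap_ltA v).symm)

theorem exists_autA {n : ℕ} {x y : Fin n → V}
    (h : ∀ i j, x1 (x i) < x1 (x j) ↔ x1 (y i) < x1 (y j)) :
    ∃ g : LtLang.Equiv V V, ∀ i, g (x i) = y i := by
  obtain ⟨g, hg1, hg2⟩ := ext_iso generic_x1 generic_x1 (x := x) (y := y) (by
    intro k i j
    exact h i j)
  obtain ⟨g', hg'⟩ := autA_of (g := g) (fun u v => hg2 () u v)
  exact ⟨g', fun i => by rw [hg', hg1]⟩

/-! ### Oligomorphic -/

theorem oligo_of {L : FirstOrder.Language.{0, 0}} {M : Type} [L.Structure M] [Nonempty M]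
    (τ : ∀ n : ℕ, (Fin n → M) → (Fin n → Fin n → Bool × Bool))
    (h : ∀ n (x y : Fin n → M), τ n x = τ n y → ∃ g : L.Equiv M M, ∀ i, g (x i) = y i) :
    Oligomorphic L M := by
  classical
  intro n
  let rep : (Fin n → Fin n → Bool × Bool) → (Fin n → M) := fun t =>
    if h : ∃ x, τ n x = t then h.choose else Classical.arbitrary _
  refine ⟨Finset.univ.image rep, fun x => ?_⟩
  have hx : ∃ z, τ n z = τ n x := ⟨x, rfl⟩
  have h1 : rep (τ n x) = hx.choose := by
    simp only [rep]
    rw [dif_pos hx]
  have h2 := hx.choose_spec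
  obtain ⟨g, hg⟩ := h n x hx.choose h2.symm
  refine ⟨g, ?_⟩
  have : (fun i => g (x i)) = rep (τ n x) := by
    rw [h1]
    exact funext hg
  rw [this]
  exact Finset.mem_image_of_mem _ (Finset.mem_univ _)

theorem oligoB : Oligomorphic LB V := by
  classical
  refine oligo_of (fun n x i j => (decide (x1 (x i) < x1 (x j)), decide (x2 (x i) < x2 (x j))))
    (fun n x y h => exists_autB ⟨fun i j => ?_, Or.inl fun i j => ?_⟩)
  · have := congrFun (congrFun h i) j
    simpa using congrArg Prod.fst this
  · have := congrFun (congrFun h i) j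
    simpa using congrArg Prod.snd this

theorem oligoA : Oligomorphic LtLang V := by
  classical
  refine oligo_of (fun n x i j => (decide (x1 (x i) < x1 (x j)), true))
    (fun n x y h => exists_autA fun i j => ?_)
  have := congrFun (congrFun h i) j
  simpa using congrArg Prod.fst this

/-! ### Homogeneity of `B` -/

theorem homogB : LB.IsUltrahomogeneous V := by
  intro S hS f
  have hfin : Finite S := hS.finite
  have := Fintype.ofFinite S
  let e := Fintype.equivFin S
  obtain ⟨g, hg⟩ := exists_autB (n := Fintype.card S) (x := fun i => (e.symm i : V))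
    (y := fun i => f (e.symm i)) (by
      refine ⟨fun i j => ?_, ?_⟩
      · exact (f.map_rel ltB ![e.symm i, e.symm j]).symm
      · refine btw_order (p := fun i => x2 (e.symm i : V)) (q := fun i => x2 (f (e.symm i)))
          (fun i j h => e.symm.injective (Subtype.ext (x2_inj h)))
          (fun i j h => e.symm.injective (f.injective (x2_inj h))) ?_
        intro i j k
        exact (f.map_rel btwB ![e.symm i, e.symm j, e.symm k]).symm)
  refine ⟨g, FirstOrder.Language.Embedding.ext fun s => ?_⟩
  have := hg (e s)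
  simp only [Equiv.symm_apply_apply] at this
  exact this.symm

/-! ### Primitivity of the automorphism group of `B` -/

theorem primB : PrimitiveAut LB V := by
  intro E hE
  by_cases h : ∃ x y : V, x1 x < x1 y ∧ E x y
  · right
    obtain ⟨x, y, hxy, hE1⟩ := h
    have key : ∀ u v : V, x1 u < x1 v → E u v := by
      intro u v huv
      have hne : ∀ a b : V, x1 a < x1 b → x2 a ≠ x2 b := by
        intro a b hab h'
        rw [x2_inj h'] at hab
        exact lt_irrefl _ hab
      have hne1 := hne _ _ hxy
      have hne2 := hne _ _ huv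
      obtain ⟨g, hg⟩ := exists_autB (x := ![x, y]) (y := ![u, v]) (by
        refine ⟨fun i j => ?_, ?_⟩
        · fin_cases i <;> fin_cases j <;> simp [hxy, huv, not_lt_of_gt hxy, not_lt_of_gt huv]
        · rcases lt_or_gt_of_ne hne1 with a | a <;> rcases lt_or_gt_of_ne hne2 with b | b
          · left
            intro i j
            fin_cases i <;> fin_cases j <;> simp [a, b, not_lt_of_gt a, not_lt_of_gt b]
          · right
            intro i j
            fin_cases i <;> fin_cases j <;> simp [a, b, not_lt_of_gt a, not_lt_of_gt b]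
          · right
            intro i j
            fin_cases i <;> fin_cases j <;> simp [a, b, not_lt_of_gt a, not_lt_of_gt b]
          · left
            intro i j
            fin_cases i <;> fin_cases j <;> simp [a, b, not_lt_of_gt a, not_lt_of_gt b])
      have h3 := hE g x y hE1
      have e1 : g x = u := by simpa using hg 0
      have e2 : g y = v := by simpa using hg 1
      rwa [e1, e2] at h3
    rw [Setoid.eq_top_iff]
    intro u v
    rcases lt_trichotomy (x1 u) (x1 v) with h3 | h3 | h3
    · exact key u v h3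
    · rw [x1_inj h3]
    · exact E.symm' (key v u h3)
  · left
    push Not at h
    apply le_antisymm _ bot_le
    intro u v huv
    show u = v
    rcases lt_trichotomy (x1 u) (x1 v) with h3 | h3 | h3
    · exact absurd huv (h u v h3)
    · exact x1_inj h3
    · exact absurd (E.symm' huv) (h v u h3)

end Pool.Agent.H74.Stub
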