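import Mathlib
import Pool.Agent.H74.Stub.Struct

set_option autoImplicit false

namespace Pool.Agent.H74.Stub

open FirstOrder FirstOrder.Language Set

/-! ### Interdefinable structures have the same automorphisms -/

theorem definable_aut {L : FirstOrder.Language.{0, 0}} {M : Type} [L.Structure M] {k : ℕ}
    {S : Set (Fin k → M)} (hS : (∅ : Set M).Definable L S) (g : L.Equiv M M) (v : Fin k → M) :
    (fun i => g (v i)) ∈ S ↔ v ∈ S := by
  rw [empty_definable_iff] at hS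
  obtain ⟨φ, rfl⟩ := hS
  exact StrongHomClass.realize_formula g φ

theorem aut_transfer {L L' : FirstOrder.Language.{0, 0}} [L'.IsRelational] {M : Type}
    [L.Structure M] [L'.Structure M] (h : IsFOReduct L L' M) (g : L.Equiv M M) :
    ∃ g' : L'.Equiv M M, ∀ v, g' v = g v :=
  ⟨{ toEquiv := g.toEquiv
     map_fun' := fun f => isEmptyElim f
     map_rel' := fun {k} R v => definable_aut (h k R) g v }, fun _ => rfl⟩

theorem sameB_pp {L' : FirstOrder.Language.{0, 0}} [L'.IsRelational] [L'.Structure V]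
    (hi : Interdefinable LB L' V) (hc : IsModelCompleteCore L' V) {n : ℕ} (a : Fin n → V) :
    PPDefinable L' {x : Fin n → V | SameB a x} := by
  have h := orbit_pp hc a
  convert h using 1
  ext x
  simp only [mem_ofPred_eq]
  constructor
  · intro hx
    obtain ⟨g, hg⟩ := exists_autB hx
    obtain ⟨g', hg'⟩ := aut_transfer hi.1 g
    exact ⟨g', fun i => by rw [hg', hg]⟩
  · rintro ⟨g, hg⟩
    obtain ⟨g', hg'⟩ := aut_transfer hi.2 g
    obtain ⟨h1, h2⟩ := autB_same g'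
    refine ⟨fun i j => ?_, ?_⟩
    · rw [hg i, hg j, ← hg', ← hg']
      exact h1 _ _
    · rcases h2 with h2 | h2
      · left
        intro i j
        rw [hg i, hg j, ← hg', ← hg']
        exact h2 _ _
      · right
        intro i j
        rw [hg i, hg j, ← hg', ← hg']
        exact h2 _ _

/-! ### Patterns -/

theorem realize_pattern {I : Type} (p1 p2 : I → ℤ) (h1 : Function.Injective p1)
    (h2 : Function.Injective p2) :
    ∃ a : I → V, (∀ i j, p1 i < p1 j ↔ x1 (a i) < x1 (a j)) ∧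
      (∀ i j, p2 i < p2 j ↔ x2 (a i) < x2 (a j)) := by
  have h : ∀ i, ∃ v : V, (p1 i : ℝ) < x1 v ∧ x1 v < p1 i + 1 ∧ (p2 i : ℝ) < x2 v ∧
      x2 v < p2 i + 1 := fun i => x_dense _ _ _ _ (by linarith) (by linarith)
  choose a ha using h
  have key : ∀ (p : I → ℤ) (x : V → ℝ), Function.Injective p →
      (∀ i, (p i : ℝ) < x (a i) ∧ x (a i) < p i + 1) →
      ∀ i j, p i < p j ↔ x (a i) < x (a j) := by
    intro p x hp hx i j
    have hlt : ∀ i j, p i < p j → x (a i) < x (a j) := by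
      intro i j hij
      have h3 : (p i : ℝ) + 1 ≤ p j := by exact_mod_cast hij
      linarith [(hx i).2, (hx j).1]
    refine ⟨hlt i j, fun h => ?_⟩
    rcases lt_trichotomy (p i) (p j) with h3 | h3 | h3
    · exact h3
    · rw [hp h3] at h
      exact absurd h (lt_irrefl _)
    · exact absurd h (not_lt_of_gt (hlt j i h3))
  exact ⟨a, key p1 x1 h1 (fun i => ⟨(ha i).1, (ha i).2.1⟩),
    key p2 x2 h2 (fun i => ⟨(ha i).2.2.1, (ha i).2.2.2⟩)⟩

/-- Tuples realizing a pattern. -/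
def PatB {I : Type} (p1 p2 : I → ℤ) : Set (I → V) :=
  {x | (∀ i j, p1 i < p1 j ↔ x1 (x i) < x1 (x j)) ∧
    ((∀ i j, p2 i < p2 j ↔ x2 (x i) < x2 (x j)) ∨
      (∀ i j, p2 i < p2 j ↔ x2 (x j) < x2 (x i)))}

/-- The hypothesis that all patterns are pp-definable. -/
def AllPat (L' : FirstOrder.Language.{0, 0}) [L'.Structure V] : Prop :=
  ∀ (n : ℕ) (p1 p2 : Fin n → ℤ), Function.Injective p1 → Function.Injective p2 →
    PPDefinable L' (PatB p1 p2)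

theorem allPat {L' : FirstOrder.Language.{0, 0}} [L'.IsRelational] [L'.Structure V]
    (hi : Interdefinable LB L' V) (hc : IsModelCompleteCore L' V) : AllPat L' := by
  intro n p1 p2 h1 h2
  obtain ⟨a, ha1, ha2⟩ := realize_pattern p1 p2 h1 h2
  have := sameB_pp hi hc a
  convert this using 1
  ext x
  simp only [PatB, SameB, mem_ofPred_eq, ha1, ha2]

/-! ### The relations on pairs -/

theorem chain4 (q : Fin 4 → ℝ) :
    (∀ i j, (![0, 1, 2, 3] : Fin 4 → ℤ) i < (![0, 1, 2, 3] : Fin 4 → ℤ) j ↔ q i < q j) ↔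
      (q 0 < q 1 ∧ q 1 < q 2 ∧ q 2 < q 3) := by
  constructor
  · intro h
    refine ⟨(h 0 1).1 ?_, (h 1 2).1 ?_, (h 2 3).1 ?_⟩ <;> simp
  · rintro ⟨h1, h2, h3⟩ i j
    fin_cases i <;> fin_cases j <;> simp <;> linarith

theorem chain4r (q : Fin 4 → ℝ) :
    (∀ i j, (![0, 1, 2, 3] : Fin 4 → ℤ) i < (![0, 1, 2, 3] : Fin 4 → ℤ) j ↔ q j < q i) ↔
      (q 1 < q 0 ∧ q 2 < q 1 ∧ q 3 < q 2) := by
  constructor
  · intro h
    refine ⟨(h 0 1).1 ?_, (h 1 2).1 ?_, (h 2 3).1 ?_⟩ <;> simp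
  · rintro ⟨h1, h2, h3⟩ i j
    fin_cases i <;> fin_cases j <;> simp <;> linarith

theorem chain4' (q : Fin 4 → ℝ) :
    (∀ i j, (![1, 0, 2, 3] : Fin 4 → ℤ) i < (![1, 0, 2, 3] : Fin 4 → ℤ) j ↔ q i < q j) ↔
      (q 1 < q 0 ∧ q 0 < q 2 ∧ q 2 < q 3) := by
  constructor
  · intro h
    refine ⟨(h 1 0).1 ?_, (h 0 2).1 ?_, (h 2 3).1 ?_⟩ <;> simp
  · rintro ⟨h1, h2, h3⟩ i j
    fin_cases i <;> fin_cases j <;> simp <;> linarith

theorem chain4'r (q : Fin 4 → ℝ) :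
    (∀ i j, (![1, 0, 2, 3] : Fin 4 → ℤ) i < (![1, 0, 2, 3] : Fin 4 → ℤ) j ↔ q j < q i) ↔
      (q 0 < q 1 ∧ q 2 < q 0 ∧ q 3 < q 2) := by
  constructor
  · intro h
    refine ⟨(h 1 0).1 ?_, (h 0 2).1 ?_, (h 2 3).1 ?_⟩ <;> simp
  · rintro ⟨h1, h2, h3⟩ i j
    fin_cases i <;> fin_cases j <;> simp <;> linarith

/-- Two pairs have the same bit (`c = false`) or different bits (`c = true`). -/
def EE (c : Bool) : Set (Fin 4 → V) :=
  {z | x1 (z 0) < x1 (z 1) ∧ x1 (z 2) < x1 (z 3) ∧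
    ((x2 (z 0) < x2 (z 1) ↔ x2 (z 2) < x2 (z 3)) ↔ c = false)}

theorem x2_ne {u v : V} (h : x1 u < x1 v) : x2 u ≠ x2 v := by
  intro h'
  rw [x2_inj h'] at h
  exact lt_irrefl _ h

/-- A pair far away. -/
theorem far_pair (z : Fin 4 → V) :
    (∃ u v : V, (∀ i, x1 (z i) < x1 u) ∧ x1 u < x1 v ∧ (∀ i, x2 (z i) < x2 u) ∧ x2 u < x2 v) ∧
    (∃ u v : V, (∀ i, x1 (z i) < x1 u) ∧ x1 u < x1 v ∧ (∀ i, x2 u < x2 (z i)) ∧ x2 v < x2 u) := by
  obtain ⟨M, hM⟩ : ∃ M : ℝ, ∀ i, x1 (z i) < M ∧ x2 (z i) < M ∧ -M < x2 (z i) := by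
    refine ⟨∑ i, (|x1 (z i)| + |x2 (z i)|) + 1, fun i => ?_⟩
    have h1 : |x1 (z i)| + |x2 (z i)| ≤ ∑ i, (|x1 (z i)| + |x2 (z i)|) :=
      Finset.single_le_sum (f := fun i => |x1 (z i)| + |x2 (z i)|)
        (fun i _ => by positivity) (Finset.mem_univ i)
    have h2 := abs_nonneg (x1 (z i))
    have h3 := abs_nonneg (x2 (z i))
    have h4 := le_abs_self (x1 (z i))
    have h5 := le_abs_self (x2 (z i))
    have h6 := neg_abs_le (x2 (z i))
    refine ⟨by linarith, by linarith, by linarith⟩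
  constructor
  · obtain ⟨u, hu1, hu2, hu3, hu4⟩ := x_dense M (M + 1) M (M + 1) (by linarith) (by linarith)
    obtain ⟨v, hv1, hv2, hv3, hv4⟩ := x_dense (M + 1) (M + 2) (M + 1) (M + 2) (by linarith)
      (by linarith)
    exact ⟨u, v, fun i => by linarith [(hM i).1], by linarith, fun i => by linarith [(hM i).2.1],
      by linarith⟩
  · obtain ⟨u, hu1, hu2, hu3, hu4⟩ := x_dense M (M + 1) (-M - 1) (-M) (by linarith) (by linarith)
    obtain ⟨v, hv1, hv2, hv3, hv4⟩ := x_dense (M + 1) (M + 2) (-M - 2) (-M - 1) (by linarith)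
      (by linarith)
    exact ⟨u, v, fun i => by linarith [(hM i).1], by linarith, fun i => by linarith [(hM i).2.2],
      by linarith⟩

theorem EE_pp {L' : FirstOrder.Language.{0, 0}} [L'.Structure V] (hP : AllPat L') (c : Bool) :
    PPDefinable L' (EE c) := by
  have hA : PPDefinable L' (PatB (![0, 1, 2, 3] : Fin 4 → ℤ) ![0, 1, 2, 3]) :=
    hP 4 _ _ (by decide) (by decide)
  have hB : PPDefinable L' (PatB (![0, 1, 2, 3] : Fin 4 → ℤ) ![1, 0, 2, 3]) :=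
    hP 4 _ _ (by decide) (by decide)
  cases c
  · have := pp_exists (K := Fin 2) (pp_inter
      (pp_comap (![Sum.inl 0, Sum.inl 1, Sum.inr 0, Sum.inr 1] : Fin 4 → Fin 4 ⊕ Fin 2) hA)
      (pp_comap (![Sum.inl 2, Sum.inl 3, Sum.inr 0, Sum.inr 1] : Fin 4 → Fin 4 ⊕ Fin 2) hA))
    convert this using 1
    ext z
    simp only [EE, PatB, mem_ofPred_eq, mem_inter_iff, chain4, chain4r]
    simp only [Matrix.cons_val_zero, Matrix.cons_val_one, Matrix.cons_val, Sum.elim_inl,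
      Sum.elim_inr]
    constructor
    · rintro ⟨h1, h2, h3⟩
      simp only [iff_true] at h3
      obtain ⟨⟨u, v, hu1, huv1, hu2, huv2⟩, ⟨u', v', hu1', huv1', hu2', huv2'⟩⟩ := far_pair z
      by_cases hb : x2 (z 0) < x2 (z 1)
      · have hb' := h3.1 hb
        exact ⟨![u, v], ⟨⟨h1, hu1 1, huv1⟩, Or.inl ⟨hb, hu2 1, huv2⟩⟩,
          ⟨⟨h2, hu1 3, huv1⟩, Or.inl ⟨hb', hu2 3, huv2⟩⟩⟩
      · have hb' := fun h => hb (h3.2 h)
        have hb1 := lt_of_le_of_ne (not_lt.1 hb) (x2_ne h1).symm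
        have hb2 := lt_of_le_of_ne (not_lt.1 hb') (x2_ne h2).symm
        exact ⟨![u', v'], ⟨⟨h1, hu1' 1, huv1'⟩, Or.inr ⟨hb1, hu2' 1, huv2'⟩⟩,
          ⟨⟨h2, hu1' 3, huv1'⟩, Or.inr ⟨hb2, hu2' 3, huv2'⟩⟩⟩
    · rintro ⟨y, ⟨⟨h1, h2, h3⟩, h4⟩, ⟨⟨h5, h6, h7⟩, h8⟩⟩
      refine ⟨h1, h5, ?_⟩
      simp only [iff_true]
      rcases h4 with ⟨a1, a2, a3⟩ | ⟨a1, a2, a3⟩ <;> rcases h8 with ⟨b1, b2, b3⟩ | ⟨b1, b2, b3⟩
      · exact ⟨fun _ => b1, fun _ => a1⟩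
      · exact absurd a3 (not_lt_of_gt b3)
      · exact absurd b3 (not_lt_of_gt a3)
      · exact ⟨fun h => absurd h (not_lt_of_gt a1), fun h => absurd h (not_lt_of_gt b1)⟩
  · have := pp_exists (K := Fin 2) (pp_inter
      (pp_comap (![Sum.inl 0, Sum.inl 1, Sum.inr 0, Sum.inr 1] : Fin 4 → Fin 4 ⊕ Fin 2) hA)
      (pp_comap (![Sum.inl 2, Sum.inl 3, Sum.inr 0, Sum.inr 1] : Fin 4 → Fin 4 ⊕ Fin 2) hB))
    convert this using 1
    ext z
    simp only [EE, PatB, mem_ofPred_eq, mem_inter_iff, chain4, chain4r, chain4', chain4'r]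
    simp only [Matrix.cons_val_zero, Matrix.cons_val_one, Matrix.cons_val, Sum.elim_inl,
      Sum.elim_inr]
    constructor
    · rintro ⟨h1, h2, h3⟩
      simp only [reduceCtorEq, iff_false] at h3
      obtain ⟨⟨u, v, hu1, huv1, hu2, huv2⟩, ⟨u', v', hu1', huv1', hu2', huv2'⟩⟩ := far_pair z
      by_cases hb : x2 (z 0) < x2 (z 1)
      · have hb' : ¬ x2 (z 2) < x2 (z 3) := fun h => h3 ⟨fun _ => h, fun _ => hb⟩
        have hb2 := lt_of_le_of_ne (not_lt.1 hb') (x2_ne h2).symm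
        exact ⟨![u, v], ⟨⟨h1, hu1 1, huv1⟩, Or.inl ⟨hb, hu2 1, huv2⟩⟩,
          ⟨⟨h2, hu1 3, huv1⟩, Or.inl ⟨hb2, hu2 2, huv2⟩⟩⟩
      · have hb' : x2 (z 2) < x2 (z 3) := by
          by_contra h
          exact h3 ⟨fun h' => absurd h' hb, fun h' => absurd h' h⟩
        have hb1 := lt_of_le_of_ne (not_lt.1 hb) (x2_ne h1).symm
        exact ⟨![u', v'], ⟨⟨h1, hu1' 1, huv1'⟩, Or.inr ⟨hb1, hu2' 1, huv2'⟩⟩,
          ⟨⟨h2, hu1' 3, huv1'⟩, Or.inr ⟨hb', hu2' 2, huv2'⟩⟩⟩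
    · rintro ⟨y, ⟨⟨h1, h2, h3⟩, h4⟩, ⟨⟨h5, h6, h7⟩, h8⟩⟩
      refine ⟨h1, h5, ?_⟩
      simp only [reduceCtorEq, iff_false]
      rcases h4 with ⟨a1, a2, a3⟩ | ⟨a1, a2, a3⟩ <;> rcases h8 with ⟨b1, b2, b3⟩ | ⟨b1, b2, b3⟩
      · exact fun h => absurd (h.1 a1) (not_lt_of_gt b1)
      · exact absurd a3 (not_lt_of_gt b3)
      · exact absurd b3 (not_lt_of_gt a3)
      · exact fun h => absurd (h.2 b1) (not_lt_of_gt a1)

end Pool.Agent.H74.Stub
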