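import Mathlib
import Pool.Agent.H74.Stub.Encode

set_option autoImplicit false

namespace Pool.Agent.H74.Stub

open FirstOrder FirstOrder.Language Set

/-! ### The walk attached to a sequence of bits -/

section Walk

variable (β : ℕ → Prop) [DecidablePred β] (r : ℕ)

/-- The height of the walk: `+ (r + 1)` for a true bit, `- 1` for a false bit. -/
def H (i : ℕ) : ℤ := (r + 2) * (Nat.count β i : ℤ) - i

theorem H_succ_true {i : ℕ} (h : β i) : H β r (i + 1) = H β r i + (r + 1) := by
  unfold H
  rw [Nat.count_succ, if_pos h]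
  push_cast
  ring

theorem H_succ_false {i : ℕ} (h : ¬ β i) : H β r (i + 1) = H β r i - 1 := by
  unfold H
  rw [Nat.count_succ, if_neg h]
  push_cast
  ring

theorem H_inj {i j : ℕ} (hi : i ≤ r) (hj : j ≤ r) (h : H β r i = H β r j) : i = j := by
  wlog hij : i ≤ j generalizing i j
  · exact (this hj hi h.symm (le_of_not_ge hij)).symm
  have hc : Nat.count β i ≤ Nat.count β j := Nat.count_monotone β hij
  unfold H at h
  have h1 : ((r : ℤ) + 2) * ((Nat.count β j : ℤ) - Nat.count β i) = (j : ℤ) - i := by linarith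
  by_contra hne
  have hlt : (i : ℤ) < j := by
    have : i < j := lt_of_le_of_ne hij hne
    exact_mod_cast this
  have hjr : (j : ℤ) ≤ r := by exact_mod_cast hj
  have hi0 : (0 : ℤ) ≤ i := by positivity
  rcases Nat.eq_or_lt_of_le hc with h2 | h2
  · rw [h2] at h1
    simp at h1
    linarith
  · have h3 : (1 : ℤ) ≤ (Nat.count β j : ℤ) - Nat.count β i := by
      have : (Nat.count β i : ℤ) < Nat.count β j := by exact_mod_cast h2
      linarith
    nlinarith

theorem H_pos {i : ℕ} (hi : i < r) (h : β i) : H β r 0 < H β r r := by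
  unfold H
  have h1 : 1 ≤ Nat.count β r := by
    have h2 : Nat.count β (i + 1) ≤ Nat.count β r := Nat.count_monotone β hi
    rw [Nat.count_succ, if_pos h] at h2
    omega
  have h3 : (1 : ℤ) ≤ Nat.count β r := by exact_mod_cast h1
  simp only [Nat.count_zero]
  push_cast
  nlinarith

end Walk

/-- A chain realizing given bits, not all of them false, whose end points have bit true. -/
theorem exists_chain_true {r : ℕ} (β : Fin r → Bool) (i0 : Fin r) (h0 : β i0 = true) :
    ∃ p : Fin (r + 1) → V, (∀ i : Fin r, x1 (p i.castSucc) < x1 (p i.succ) ∧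
      (x2 (p i.castSucc) < x2 (p i.succ) ↔ β i = true)) ∧
      x1 (p 0) < x1 (p (Fin.last r)) ∧ x2 (p 0) < x2 (p (Fin.last r)) := by
  classical
  let b : ℕ → Prop := fun i => ∃ h : i < r, β ⟨i, h⟩ = true
  obtain ⟨a, ha1, ha2⟩ := realize_pattern (I := Fin (r + 1)) (fun i => (i : ℤ))
    (fun i => H b r i) (fun i j h => by
      have : (i : ℤ) = j := h
      exact Fin.ext (by exact_mod_cast this))
    (fun i j h => Fin.ext (H_inj b r (Nat.lt_succ_iff.1 i.2) (Nat.lt_succ_iff.1 j.2) h))
  refine ⟨a, fun i => ⟨?_, ?_⟩, ?_, ?_⟩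
  · rw [← ha1]
    simp
  · rw [← ha2]
    simp only [Fin.val_castSucc, Fin.val_succ]
    by_cases hb : β i = true
    · have : b i := ⟨i.2, hb⟩
      rw [H_succ_true b r this]
      simp only [hb, iff_true]
      have : (0 : ℤ) ≤ r := by positivity
      linarith
    · have : ¬ b i := by
        rintro ⟨h1, h2⟩
        exact hb h2
      rw [H_succ_false b r this]
      exact ⟨fun h => absurd h (by linarith), fun h => absurd h hb⟩
  · rw [← ha1]
    simp only [Fin.val_zero, Fin.val_last]
    have : 0 < r := i0.pos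
    exact_mod_cast this
  · rw [← ha2]
    simp only [Fin.val_zero, Fin.val_last]
    exact H_pos b r i0.2 ⟨i0.2, h0⟩

/-- A chain realizing given bits, not all of them true, whose end points have bit false. -/
theorem exists_chain_false {r : ℕ} (β : Fin r → Bool) (i0 : Fin r) (h0 : β i0 = false) :
    ∃ p : Fin (r + 1) → V, (∀ i : Fin r, x1 (p i.castSucc) < x1 (p i.succ) ∧
      (x2 (p i.castSucc) < x2 (p i.succ) ↔ β i = true)) ∧
      x1 (p 0) < x1 (p (Fin.last r)) ∧ x2 (p (Fin.last r)) < x2 (p 0) := by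
  classical
  let b : ℕ → Prop := fun i => ∃ h : i < r, β ⟨i, h⟩ = false
  obtain ⟨a, ha1, ha2⟩ := realize_pattern (I := Fin (r + 1)) (fun i => (i : ℤ))
    (fun i => - H b r i) (fun i j h => by
      have : (i : ℤ) = j := h
      exact Fin.ext (by exact_mod_cast this))
    (fun i j h => Fin.ext (H_inj b r (Nat.lt_succ_iff.1 i.2) (Nat.lt_succ_iff.1 j.2)
      (neg_injective h)))
  refine ⟨a, fun i => ⟨?_, ?_⟩, ?_, ?_⟩
  · rw [← ha1]
    simp
  · rw [← ha2]
    simp only [Fin.val_castSucc, Fin.val_succ]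
    by_cases hb : β i = true
    · have : ¬ b i := by
        rintro ⟨h1, h2⟩
        rw [hb] at h2
        exact Bool.noConfusion h2
      rw [H_succ_false b r this]
      simp only [hb, iff_true]
      linarith
    · have : b i := ⟨i.2, by simpa using hb⟩
      rw [H_succ_true b r this]
      have : (0 : ℤ) ≤ r := by positivity
      exact ⟨fun h => absurd h (by linarith), fun h => absurd h hb⟩
  · rw [← ha1]
    simp only [Fin.val_zero, Fin.val_last]
    have : 0 < r := i0.pos
    exact_mod_cast this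
  · rw [← ha2]
    simp only [Fin.val_zero, Fin.val_last]
    exact neg_lt_neg (H_pos b r i0.2 ⟨i0.2, h0⟩)

/-! ### Bits of a family of pairs -/

open Classical in
/-- The bit of the `i`-th pair. -/
noncomputable def bit {I : Type} (W : I × Fin 2 → V) (i : I) : Bool :=
  decide (x2 (W (i, 0)) < x2 (W (i, 1)))

theorem bit_true {I : Type} (W : I × Fin 2 → V) (i : I) :
    bit W i = true ↔ x2 (W (i, 0)) < x2 (W (i, 1)) := by
  simp [bit]

/-- All pairs are increasing for the first order. -/
def Good {I : Type} : Set (I × Fin 2 → V) := {W | ∀ i, x1 (W (i, 0)) < x1 (W (i, 1))}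

section

variable {L' : FirstOrder.Language.{0, 0}} [L'.Structure V]

theorem lt_pp (hP : AllPat L') : PPDefinable L' {x : Fin 2 → V | x1 (x 0) < x1 (x 1)} := by
  have := hP 2 ![0, 1] ![0, 1] (by decide) (by decide)
  convert this using 1
  ext x
  simp only [mem_ofPred_eq, PatB]
  constructor
  · intro h
    refine ⟨fun i j => ?_, ?_⟩
    · fin_cases i <;> fin_cases j <;> simp [h, h.le]
    · rcases lt_or_gt_of_ne (x2_ne h) with h2 | h2
      · left
        intro i j
        fin_cases i <;> fin_cases j <;> simp [h2, h2.le]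
      · right
        intro i j
        fin_cases i <;> fin_cases j <;> simp [h2, h2.le]
  · rintro ⟨h, -⟩
    exact (h 0 1).1 (by simp)

theorem good_pp {I : Type} [Finite I] (hP : AllPat L') :
    PPDefinable L' (Good : Set (I × Fin 2 → V)) := by
  have : (Good : Set (I × Fin 2 → V)) = ⋂ i : I, {W | x1 (W (i, 0)) < x1 (W (i, 1))} := by
    ext W
    simp [Good]
  rw [this]
  exact pp_iInter fun i => pp_comap ![(i, 0), (i, 1)] (lt_pp hP)

/-- The bits are neither `c` nor the complement of `c`. -/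
def NN {r : ℕ} (c : Fin r → Bool) : Set (Fin r × Fin 2 → V) :=
  {W | W ∈ (Good : Set (Fin r × Fin 2 → V)) ∧ ¬ (∀ i, bit W i = c i) ∧ ¬ (∀ i, bit W i = !c i)}

theorem chain_mono {r : ℕ} {q : Fin (r + 1) → ℝ} (h : ∀ i : Fin r, q i.castSucc < q i.succ)
    (hr : (0 : Fin (r + 1)) ≠ Fin.last r) : q 0 < q (Fin.last r) := by
  have h1 : StrictMono q := Fin.strictMono_iff_lt_succ.2 h
  apply h1
  exact lt_of_le_of_ne (Fin.zero_le _) hr

theorem NN_pp (hP : AllPat L') {r : ℕ} (c : Fin r → Bool) : PPDefinable L' (NN c) := by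
  -- bound variables: two chains and a pair
  let K := Fin (r + 1) ⊕ Fin (r + 1) ⊕ Fin 2
  let S : Set ((Fin r × Fin 2) ⊕ K → V) :=
    ((⋂ i : Fin r, {z | (fun l => z ((![Sum.inr (Sum.inl i.castSucc), Sum.inr (Sum.inl i.succ),
        Sum.inl (i, 0), Sum.inl (i, 1)] : Fin 4 → (Fin r × Fin 2) ⊕ K) l)) ∈ EE (c i)}) ∩
    (⋂ i : Fin r, {z | (fun l => z ((![Sum.inr (Sum.inr (Sum.inl i.castSucc)),
        Sum.inr (Sum.inr (Sum.inl i.succ)),
        Sum.inl (i, 0), Sum.inl (i, 1)] : Fin 4 → (Fin r × Fin 2) ⊕ K) l)) ∈ EE (c i)})) ∩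
    ({z | (fun l => z ((![Sum.inr (Sum.inl 0), Sum.inr (Sum.inl (Fin.last r)),
        Sum.inr (Sum.inr (Sum.inr 0)), Sum.inr (Sum.inr (Sum.inr 1))] :
        Fin 4 → (Fin r × Fin 2) ⊕ K) l)) ∈ EE false} ∩
    {z | (fun l => z ((![Sum.inr (Sum.inr (Sum.inl 0)), Sum.inr (Sum.inr (Sum.inl (Fin.last r))),
        Sum.inr (Sum.inr (Sum.inr 0)), Sum.inr (Sum.inr (Sum.inr 1))] :
        Fin 4 → (Fin r × Fin 2) ⊕ K) l)) ∈ EE true})
  have hS : PPDefinable L' S :=
    pp_inter (pp_inter (pp_iInter fun i => pp_comap _ (EE_pp hP (c i)))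
      (pp_iInter fun i => pp_comap _ (EE_pp hP (c i))))
      (pp_inter (pp_comap _ (EE_pp hP false)) (pp_comap _ (EE_pp hP true)))
  have hS' := pp_inter (good_pp (I := Fin r) hP) (pp_exists hS)
  convert hS' using 1
  ext W
  simp only [NN, mem_ofPred_eq, mem_inter_iff]
  apply and_congr_right
  intro hW
  have hW' : ∀ i, x1 (W (i, 0)) < x1 (W (i, 1)) := hW
  constructor
  · rintro ⟨hc1, hc2⟩
    push Not at hc1 hc2
    obtain ⟨i0, hi0⟩ := hc1
    obtain ⟨i1, hi1⟩ := hc2
    -- the bits
    let β : Fin r → Bool := fun i => xor (bit W i) (c i)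
    obtain ⟨p, hp1, hp2, hp3⟩ := exists_chain_true β i0 (by
      simp only [β]
      revert hi0
      cases bit W i0 <;> cases c i0 <;> simp)
    obtain ⟨p', hp1', hp2', hp3'⟩ := exists_chain_false β i1 (by
      simp only [β]
      revert hi1
      cases bit W i1 <;> cases c i1 <;> simp)
    obtain ⟨u, v, -, huv1, -, huv2⟩ := (far_pair (fun _ => 0)).1
    have hEE : ∀ (i : Fin r) (q : Fin (r + 1) → V), (x1 (q i.castSucc) < x1 (q i.succ) ∧
        (x2 (q i.castSucc) < x2 (q i.succ) ↔ β i = true)) →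
        (![q i.castSucc, q i.succ, W (i, 0), W (i, 1)] : Fin 4 → V) ∈ EE (c i) := by
      rintro i q ⟨h1, h2⟩
      refine ⟨by simpa using h1, by simpa using hW' i, ?_⟩
      show (x2 (q i.castSucc) < x2 (q i.succ) ↔ x2 (W (i, 0)) < x2 (W (i, 1))) ↔ c i = false
      rw [h2, ← bit_true]
      simp only [β]
      cases bit W i <;> cases c i <;> simp
    refine ⟨Sum.elim p (Sum.elim p' ![u, v]), ⟨?_, ?_⟩, ?_, ?_⟩
    · rw [mem_iInter]
      intro i
      have := hEE i p (hp1 i)
      rw [mem_ofPred_eq]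
      convert this using 1
      funext l
      fin_cases l <;> simp
    · rw [mem_iInter]
      intro i
      have := hEE i p' (hp1' i)
      rw [mem_ofPred_eq]
      convert this using 1
      funext l
      fin_cases l <;> simp
    · rw [mem_ofPred_eq]
      refine ⟨by simpa using hp2, by simpa using huv1, ?_⟩
      simp [hp3, huv2]
    · rw [mem_ofPred_eq]
      refine ⟨by simpa using hp2', by simpa using huv1, ?_⟩
      simp [hp3'.le, huv2]
  · rintro ⟨y, ⟨h1, h2⟩, h3, h4⟩
    rw [mem_iInter] at h1 h2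
    rw [mem_ofPred_eq] at h3 h4
    let p : Fin (r + 1) → V := fun i => y (Sum.inl i)
    let p' : Fin (r + 1) → V := fun i => y (Sum.inr (Sum.inl i))
    let u : V := y (Sum.inr (Sum.inr 0))
    let v : V := y (Sum.inr (Sum.inr 1))
    have g1 : ∀ i : Fin r, x1 (p i.castSucc) < x1 (p i.succ) ∧
        ((x2 (p i.castSucc) < x2 (p i.succ) ↔ bit W i = true) ↔ c i = false) := by
      intro i
      obtain ⟨a1, a2, a3⟩ := h1 i
      refine ⟨by simpa using a1, ?_⟩
      rw [bit_true]
      simpa using a3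
    have g2 : ∀ i : Fin r, x1 (p' i.castSucc) < x1 (p' i.succ) ∧
        ((x2 (p' i.castSucc) < x2 (p' i.succ) ↔ bit W i = true) ↔ c i = false) := by
      intro i
      obtain ⟨a1, a2, a3⟩ := h2 i
      refine ⟨by simpa using a1, ?_⟩
      rw [bit_true]
      simpa using a3
    have g3 : x1 (p 0) < x1 (p (Fin.last r)) ∧ x1 u < x1 v ∧
        (x2 (p 0) < x2 (p (Fin.last r)) ↔ x2 u < x2 v) := by
      obtain ⟨a1, a2, a3⟩ := h3
      refine ⟨by simpa using a1, by simpa using a2, ?_⟩
      simpa using a3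
    have g4 : x1 (p' 0) < x1 (p' (Fin.last r)) ∧
        ¬ (x2 (p' 0) < x2 (p' (Fin.last r)) ↔ x2 u < x2 v) := by
      obtain ⟨a1, a2, a3⟩ := h4
      refine ⟨by simpa using a1, ?_⟩
      simpa using a3
    have hr : (0 : Fin (r + 1)) ≠ Fin.last r := by
      intro h
      rw [← h] at g3
      exact lt_irrefl _ g3.1
    constructor
    · -- all bits equal to `c`: the walk goes down
      intro hall
      have e1 : ∀ i : Fin r, x2 (p i.succ) < x2 (p i.castSucc) := by
        intro i
        obtain ⟨a1, a2⟩ := g1 i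
        rw [hall i] at a2
        have : ¬ x2 (p i.castSucc) < x2 (p i.succ) := by
          intro h
          cases hci : c i <;> simp_all
        exact lt_of_le_of_ne (not_lt.1 this) (x2_ne a1).symm
      have e2 : ∀ i : Fin r, x2 (p' i.succ) < x2 (p' i.castSucc) := by
        intro i
        obtain ⟨a1, a2⟩ := g2 i
        rw [hall i] at a2
        have : ¬ x2 (p' i.castSucc) < x2 (p' i.succ) := by
          intro h
          cases hci : c i <;> simp_all
        exact lt_of_le_of_ne (not_lt.1 this) (x2_ne a1).symm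
      have e3 := chain_mono (q := fun i => - x2 (p i)) (fun i => neg_lt_neg (e1 i)) hr
      have e4 := chain_mono (q := fun i => - x2 (p' i)) (fun i => neg_lt_neg (e2 i)) hr
      have e5 : ¬ x2 (p 0) < x2 (p (Fin.last r)) := not_lt_of_gt (by simpa using e3)
      have e6 : ¬ x2 (p' 0) < x2 (p' (Fin.last r)) := not_lt_of_gt (by simpa using e4)
      exact g4.2 ⟨fun h => absurd h e6, fun h => absurd (g3.2.2.2 h) e5⟩
    · -- all bits different from `c`: the walk goes up
      intro hall
      have e1 : ∀ i : Fin r, x2 (p i.castSucc) < x2 (p i.succ) := by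
        intro i
        obtain ⟨a1, a2⟩ := g1 i
        rw [hall i] at a2
        by_contra h
        cases hci : c i <;> simp_all
      have e2 : ∀ i : Fin r, x2 (p' i.castSucc) < x2 (p' i.succ) := by
        intro i
        obtain ⟨a1, a2⟩ := g2 i
        rw [hall i] at a2
        by_contra h
        cases hci : c i <;> simp_all
      have e3 := chain_mono (q := fun i => x2 (p i)) e1 hr
      have e4 := chain_mono (q := fun i => x2 (p' i)) e2 hr
      exact g4.2 ⟨fun _ => g3.2.2.1 e3, fun _ => e4⟩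

/-- Complement-closed conditions on the bits are pp-definable. -/
theorem bits_pp_fin (hP : AllPat L') {r : ℕ} (T : Set (Fin r → Bool))
    (hT : ∀ β ∈ T, (fun i => !β i) ∈ T) :
    PPDefinable L' {W : Fin r × Fin 2 → V | W ∈ (Good : Set (Fin r × Fin 2 → V)) ∧ bit W ∈ T} := by
  have h := pp_inter (good_pp (I := Fin r) hP)
    (pp_iInter (κ := {c : Fin r → Bool // c ∉ T}) fun c => NN_pp hP c.1)
  convert h using 1
  ext W
  simp only [mem_ofPred_eq, mem_inter_iff, mem_iInter, NN]
  apply and_congr_right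
  intro hW
  constructor
  · rintro hT' ⟨c, hc⟩
    refine ⟨hW, fun h => hc ?_, fun h => hc ?_⟩
    · rwa [show c = bit W from (funext h).symm]
    · have := hT _ hT'
      convert this using 1
      ext i
      rw [h i]
      simp
  · intro h
    by_contra hT'
    exact (h ⟨bit W, hT'⟩).2.1 (fun i => rfl)

theorem bits_pp (hP : AllPat L') {I : Type} [Finite I] (T : Set (I → Bool))
    (hT : ∀ β ∈ T, (fun i => !β i) ∈ T) :
    PPDefinable L' {W : I × Fin 2 → V | W ∈ (Good : Set (I × Fin 2 → V)) ∧ bit W ∈ T} := by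
  have := Fintype.ofFinite I
  let e := Fintype.equivFin I
  have h := bits_pp_fin hP {β : Fin (Fintype.card I) → Bool | (fun i => β (e i)) ∈ T}
    (fun β hβ => hT _ hβ)
  have h2 := pp_comap (fun p : Fin (Fintype.card I) × Fin 2 => (e.symm p.1, p.2)) h
  convert h2 using 1
  ext W
  simp only [mem_ofPred_eq, Good]
  constructor
  · rintro ⟨h3, h4⟩
    refine ⟨fun i => h3 _, ?_⟩
    convert h4 using 1
    ext i
    simp [bit]
  · rintro ⟨h3, h4⟩
    refine ⟨fun i => ?_, ?_⟩
    · simpa using h3 (e i)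
    · convert h4 using 1
      ext i
      simp [bit]

end

end Pool.Agent.H74.Stub
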