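import Mathlib
import Pool.Agent.H74.Stub.Encode2

set_option autoImplicit false

namespace Pool.Agent.H74.Stub

open FirstOrder FirstOrder.Language Set

section

variable {L' : FirstOrder.Language.{0, 0}} [L'.Structure V]

/-- The pairs coded by a point of the power `V ^ ((m + 1) * 2)`. -/
def pairs {m : ℕ} (w : Fin ((m + 1) * 2) → V) : Fin (m + 1) × Fin 2 → V :=
  fun p => w (finProdFinEquiv p)

/-- The condition on the bits saying that they code a tuple of `R`. -/
def Cond {N : Type} {m k : ℕ} (code : N → Fin m → Bool) (R : (Fin k → N) → Prop) :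
    Set (Fin k × Fin (m + 1) → Bool) :=
  {β | (∀ j j', β (j, 0) = β (j', 0)) ∧
    ∃ d : Fin k → N, R d ∧ ∀ j i, xor (β (j, Fin.succ i)) (β (j, 0)) = code (d j) i}

theorem cond_compl {N : Type} {m k : ℕ} (code : N → Fin m → Bool) (R : (Fin k → N) → Prop) :
    ∀ β ∈ Cond code R, (fun i => !β i) ∈ Cond code R := by
  rintro β ⟨h1, d, h2, h3⟩
  refine ⟨fun j j' => congrArg not (h1 j j'), d, h2, fun j i => ?_⟩
  rw [← h3 j i]
  show xor (!β (j, Fin.succ i)) (!β (j, 0)) = _
  cases β (j, Fin.succ i) <;> cases β (j, 0) <;> rfl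

theorem constructs_all (hP : AllPat L') : PPConstructsAllFinite L' V := by
  classical
  intro LN hLN N hN hfin hne
  have := Fintype.ofFinite N
  -- the code
  let m := Fintype.card N
  let e := Fintype.equivFin N
  let code : N → Fin m → Bool := fun d i => decide (e d = i)
  have hcode : Function.Injective code := by
    intro d d' h
    have h1 := congrFun h (e d)
    simp only [code, decide_true] at h1
    have h2 : e d' = e d := by simpa using h1.symm
    exact (e.injective h2).symm
  -- the pp-power
  let famPairs : ∀ {k : ℕ}, (Fin k → Fin ((m + 1) * 2) → V) → (Fin k × Fin (m + 1)) × Fin 2 → V :=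
    fun {k} w p => pairs (w p.1.1) (p.1.2, p.2)
  let P : LN.Structure (Fin ((m + 1) * 2) → V) :=
    { funMap := fun f => isEmptyElim f
      RelMap := fun {k} R w =>
        famPairs w ∈ (Good : Set ((Fin k × Fin (m + 1)) × Fin 2 → V)) ∧
          bit (famPairs w) ∈ Cond code (fun d => Structure.RelMap R d) }
  refine ⟨(m + 1) * 2, P, by positivity, ?_, ?_, ?_⟩
  · intro k R
    have h1 := bits_pp hP (Cond (k := k) code (fun d => Structure.RelMap R d)) (cond_compl _ _)
    exact pp_comap (fun p : (Fin k × Fin (m + 1)) × Fin 2 =>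
      (p.1.1, finProdFinEquiv (p.1.2, p.2))) h1
  · -- the homomorphism onto `N`
    let dec : (Fin ((m + 1) * 2) → V) → Fin m → Bool := fun w i =>
      xor (bit (pairs w) (Fin.succ i)) (bit (pairs w) 0)
    let f : (Fin ((m + 1) * 2) → V) → N := fun w =>
      if h : ∃ d, code d = dec w then h.choose else Classical.arbitrary N
    have hf : ∀ w d, code d = dec w → f w = d := by
      intro w d h
      have h' : ∃ d, code d = dec w := ⟨d, h⟩
      simp only [f]
      rw [dif_pos h']
      exact hcode (h'.choose_spec.trans h.symm)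
    refine ⟨{ toFun := f, map_fun' := fun g => isEmptyElim g, map_rel' := ?_ }⟩
    rintro k R w ⟨-, -, d, hd, hd'⟩
    have : f ∘ w = d := by
      ext j
      apply hf
      ext i
      exact (hd' j i).symm
    rw [this]
    exact hd
  · -- the homomorphism from `N`
    obtain ⟨u, v, -, huv1, -, huv2⟩ := (far_pair (fun _ => 0)).1
    obtain ⟨u', v', -, huv1', -, huv2'⟩ := (far_pair (fun _ => 0)).2
    -- a pair with given bit
    let pr : Bool → Fin 2 → V := fun b => if b then ![u, v] else ![u', v']
    have hpr1 : ∀ b, x1 (pr b 0) < x1 (pr b 1) := by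
      intro b
      cases b
      · simpa [pr] using huv1'
      · simpa [pr] using huv1
    have hpr2 : ∀ b, x2 (pr b 0) < x2 (pr b 1) ↔ b = true := by
      intro b
      cases b
      · simpa [pr] using huv2'.le
      · simpa [pr] using huv2
    let g : N → (Fin ((m + 1) * 2) → V) := fun d l =>
      pr ((Fin.cons false (code d) : Fin (m + 1) → Bool) (finProdFinEquiv.symm l).1)
        (finProdFinEquiv.symm l).2
    have hg : ∀ d i b, pairs (g d) (i, b) = pr ((Fin.cons false (code d) : Fin (m + 1) → Bool) i) b := by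
      intro d i b
      simp only [pairs, g, Equiv.symm_apply_apply]
    refine ⟨{ toFun := g, map_fun' := fun g => isEmptyElim g, map_rel' := ?_ }⟩
    intro k R x hx
    refine ⟨?_, ?_, x, hx, ?_⟩
    · rintro ⟨j, i⟩
      show x1 (pairs (g (x j)) (i, 0)) < x1 (pairs (g (x j)) (i, 1))
      rw [hg, hg]
      exact hpr1 _
    · intro j j'
      have h0 : ∀ j, bit (famPairs (g ∘ x)) (j, 0) = false := by
        intro j
        rw [← Bool.not_eq_true, bit_true]
        show ¬ x2 (pairs (g (x j)) (0, 0)) < x2 (pairs (g (x j)) (0, 1))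
        rw [hg, hg, hpr2]
        simp
      rw [h0, h0]
    · intro j i
      have h0 : ∀ j, bit (famPairs (g ∘ x)) (j, 0) = false := by
        intro j
        rw [← Bool.not_eq_true, bit_true]
        show ¬ x2 (pairs (g (x j)) (0, 0)) < x2 (pairs (g (x j)) (0, 1))
        rw [hg, hg, hpr2]
        simp
      rw [h0, Bool.xor_false]
      rw [Bool.eq_iff_iff, bit_true]
      show x2 (pairs (g (x j)) (Fin.succ i, 0)) < x2 (pairs (g (x j)) (Fin.succ i, 1)) ↔ _
      rw [hg, hg, hpr2]
      simp

end

theorem stubbornB : Stubborn LB V := by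
  intro L' _ _ hi hc
  exact constructs_all (allPat hi hc)

/-! ### The reduct `A` -/

theorem reductA : IsFOReduct LB LtLang V := by
  intro k R
  cases R with
  | lt =>
    rw [empty_definable_iff]
    refine ⟨ltB.formula₂ (Term.var 0) (Term.var 1), ?_⟩
    ext v
    rw [mem_ofPred_eq, mem_ofPred_eq, Formula.realize_rel₂, relMap_ltB]
    exact relMap_ltA v

theorem coreA : IsModelCompleteCore LtLang V := by
  refine ⟨oligoA, fun f s => ?_⟩
  have hf : ∀ u v, x1 u < x1 v → x1 (f u) < x1 (f v) := by
    intro u v huv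
    exact (relMap_ltA _).1 (f.map_rel ltA ![u, v] ((relMap_ltA _).2 huv))
  have hf' : ∀ u v, x1 u < x1 v ↔ x1 (f u) < x1 (f v) := by
    intro u v
    refine ⟨hf u v, fun h => ?_⟩
    rcases lt_trichotomy (x1 u) (x1 v) with h3 | h3 | h3
    · exact h3
    · rw [x1_inj h3] at h
      exact absurd h (lt_irrefl _)
    · exact absurd h (not_lt_of_gt (hf _ _ h3))
  obtain ⟨g, hg⟩ := exists_autA (n := s.card) (x := fun i => (s.equivFin.symm i : V))
    (y := fun i => f (s.equivFin.symm i : V)) (fun i j => hf' _ _)
  refine ⟨g, fun x hx => ?_⟩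
  have := hg (s.equivFin ⟨x, hx⟩)
  simpa using this

/-- The minimum for the first order. -/
noncomputable def min1 (u v : V) : V := if x1 u ≤ x1 v then u else v

theorem x1_min1 (u v : V) : x1 (min1 u v) = min (x1 u) (x1 v) := by
  unfold min1
  split_ifs with h
  · rw [min_eq_left h]
  · rw [min_eq_right (le_of_not_ge h)]

theorem min1_comm (u v : V) : min1 u v = min1 v u := by
  apply x1_inj
  rw [x1_min1, x1_min1, min_comm]

/-- The complete graph on three vertices. -/
instance structK3 : LtLang.Structure (Fin 3) where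
  funMap := fun f => f.elim
  RelMap := fun {n} R v => match n, R, v with
    | _, LtRel.lt, v => v 0 ≠ v 1

theorem not_constructs : ¬ PPConstructs LtLang V LtLang (Fin 3) := by
  rintro ⟨n, P, -, hP, ⟨g⟩, ⟨e⟩⟩
  have h01 : P.RelMap ltA ![e 0, e 1] := by
    have := e.map_rel ltA ![0, 1] (show (![0, 1] : Fin 2 → Fin 3) 0 ≠ ![0, 1] 1 by decide)
    convert this using 1
    funext i
    fin_cases i <;> rfl
  have h10 : P.RelMap ltA ![e 1, e 0] := by
    have := e.map_rel ltA ![1, 0] (show (![1, 0] : Fin 2 → Fin 3) 0 ≠ ![1, 0] 1 by decide)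
    convert this using 1
    funext i
    fin_cases i <;> rfl
  have hpol := pp_pol (hP 2 ltA) min1 (by
    intro k R x x' hx hx'
    cases R with
    | lt =>
      have a1 : x1 (x 0) < x1 (x 1) := (relMap_ltA x).1 hx
      have a2 : x1 (x' 0) < x1 (x' 1) := (relMap_ltA x').1 hx'
      refine (relMap_ltA _).2 ?_
      show x1 (min1 (x 0) (x' 0)) < x1 (min1 (x 1) (x' 1))
      rw [x1_min1, x1_min1]
      exact min_lt_min a1 a2)
    (x := fun p => (![e 0, e 1] : Fin 2 → Fin n → V) p.1 p.2)
    (x' := fun p => (![e 1, e 0] : Fin 2 → Fin n → V) p.1 p.2) h01 h10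
  have hloop : P.RelMap ltA (fun _ => fun j => min1 (e 0 j) (e 1 j)) := by
    have h2 : P.RelMap ltA (fun i j => min1 ((![e 0, e 1] : Fin 2 → Fin n → V) i j)
      ((![e 1, e 0] : Fin 2 → Fin n → V) i j)) := hpol
    convert h2 using 1
    funext i j
    fin_cases i
    · rfl
    · simp [min1_comm (e 1 j)]
  have := g.map_rel ltA _ hloop
  exact this rfl

theorem not_stubbornA : ¬ Stubborn LtLang V := by
  intro h
  have hi : Interdefinable LtLang LtLang V := by
    have : IsFOReduct LtLang LtLang V := by
      intro k R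
      rw [empty_definable_iff]
      refine ⟨R.formula Term.var, ?_⟩
      ext v
      rw [mem_ofPred_eq, mem_ofPred_eq, Formula.realize_rel]
      rfl
    exact ⟨this, this⟩
  exact not_constructs (h LtLang hi coreA LtLang (Fin 3))

theorem not_eqA : ¬ InterdefinableWithEquality LtLang V := by
  rintro ⟨-, -, -, h⟩
  let _ := FirstOrder.Language.emptyStructure (M := V)
  have h1 : (∅ : Set V).Definable FirstOrder.Language.empty
      {v : Fin 2 → V | Structure.RelMap ltA v} := h 2 ltA
  let σ : V ≃ V := Equiv.swap 0 1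
  let g : FirstOrder.Language.empty.Equiv V V :=
    { toEquiv := σ
      map_fun' := fun f => isEmptyElim f
      map_rel' := fun R => isEmptyElim R }
  have h2 := definable_aut h1 g ![0, 1]
  have h4 : (![0, 1] : Fin 2 → V) ∈ {v : Fin 2 → V | Structure.RelMap ltA v} := by
    show (0 : ℚ) < 1
    norm_num
  have h5 : σ 0 < σ 1 := h2.2 h4
  have h6 : (1 : ℚ) < 0 := by simpa [σ] using h5
  exact absurd h6 (by norm_num)

end Pool.Agent.H74.Stub
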